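import Pool.Agent.KF.G.Stmts

/-!
Part G of the proof of BAL (MP_716236_co): claim A of T*.
-/

set_option autoImplicit false

namespace Pool.Agent.KF.G

open MvPolynomial Finset

namespace A

variable {Φ V : Type} [Fintype Φ] [PartialOrder Φ] [AddCommGroup V] [Module ℝ V]

/-- if the image condition holds on the stars of all faces below `F`, it holds for `η * x` -/
lemma inIm_et (L : Fn Φ) (F : Φ) (e : Φ → ℝ) (N x : MvPolynomial Φ ℝ) (l : ℕ)
    (h : ∀ G < F, InIm (mulL (X G) L) N l x) : InIm L N l (et e F * x) := by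
  classical
  unfold et
  rw [neg_mul, Finset.sum_mul]
  apply InIm.neg
  apply inIm_sum
  intro G hG
  rw [mul_assoc]
  apply InIm.mul_left
  obtain ⟨b, hb⟩ := h G (Finset.mem_filter.1 hG).2
  rw [ann_mulL] at hb
  refine ⟨X G * b, ?_⟩
  convert hb using 1
  ring

/-- a functional applied to `η * x` -/
lemma apply_et (L : Fn Φ) (F : Φ) (e : Φ → ℝ) (x : MvPolynomial Φ ℝ)
    [DecidablePred fun G => G < F] :
    L (et e F * x) = - ∑ G ∈ univ.filter (fun G => G < F), e G * L (X G * x) := by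
  unfold et
  rw [neg_mul, Finset.sum_mul, map_neg, map_sum]
  congr 1
  apply Finset.sum_congr
  · congr
  · intro G _
    rw [mul_assoc, ← smul_eq_C_mul, map_smul, smul_eq_mul]

end A

/-- CLAIM A of T*. -/
theorem claimA : S_A := by
  intro hNR hKP1 hDU hF2 hF1 hF0 hFK Φ V _ _ _ _ 𝒢 k c hcls hw F hkF ih l hl hi
  classical
  by_contra hcon
  obtain ⟨e, he0, -, T0, hT⟩ := 𝒢.hr F
  have hL : Homog (𝒢.D F) (𝒢.dim F) := 𝒢.D_homog F
  have hN1 : (𝒢.w F).IsHomogeneous 1 := th_homog _ _ _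
  have hη1 : (et e F).IsHomogeneous 1 := et_homog _ _
  have hHR : ∃ t0 : ℝ, ∀ t ≥ t0, HR (𝒢.D F) (𝒢.dim F) (et e F + C t * 𝒢.w F) :=
    ⟨T0, fun t ht => (hT t ht).1⟩
  -- the images on the stars
  have hstar : ∀ G < F, InIm (mulL (X G) (𝒢.D F)) (𝒢.w F) (l + 1) (c F) := by
    intro G hG
    have hd := 𝒢.dim_lt hG
    exact hNR hF2 hF1 hF0 Φ V 𝒢 k c hcls F G hG hkF (fun hk => ih G hG hk) (l + 1) (by omega)
  obtain ⟨s, hs⟩ : ∃ s, 2 * k = 𝒢.dim F + l + (s + 1) :=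
    ⟨2 * k - 𝒢.dim F - l - 1, by omega⟩
  obtain ⟨β, hβ, hβ1, hβ2⟩ := hKP1 hFK hDU Φ (𝒢.D F) (𝒢.dim F) (𝒢.w F) (et e F) hL hN1 hη1 hHR
    k l (s + 1) (c F) (hcls.hom F hkF) hkF (by omega) (hw F hkF) hi
  have hnot : ¬ InIm (𝒢.D F) (𝒢.w F) (l + 1) ((𝒢.w F) ^ l * β) := by
    intro h
    apply hcon
    have := hβ2.add (h.mul_left ((et e F) ^ (s + 1)))
    rwa [sub_add_cancel] at this
  -- strict positivity for `D F`
  have hpos : 0 < (-1 : ℝ) ^ (𝒢.dim F - k) *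
      𝒢.D F (β * ((et e F) ^ (s + 1) * ((𝒢.w F) ^ l * β))) := by
    have h1 := hFK Φ (𝒢.D F) (𝒢.dim F) (𝒢.w F) (et e F) hL hN1 hη1 hHR (𝒢.dim F - k) l β hβ hβ1
      (by omega) (by
        have e1 : 𝒢.dim F - 2 * (𝒢.dim F - k) - l + 1 = (s + 1) + 1 := by omega
        rw [e1]
        have h2 := (A.inIm_et (𝒢.D F) F e (𝒢.w F) (c F) (l + 1) hstar).sub
          (hβ2.mul_left (et e F))
        convert h2 using 1
        ring)
    have h2 := h1.2 hnot
    have e1 : 𝒢.dim F - 2 * (𝒢.dim F - k) - l = s + 1 := by omega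
    rwa [e1] at h2
  -- nonnegativity on the stars
  have hnn : ∀ G < F, 0 ≤ (-1 : ℝ) ^ (𝒢.dim F - k) *
      𝒢.D F (X G * (β * ((et e F) ^ s * ((𝒢.w F) ^ l * β)))) := by
    intro G hG
    have hd := 𝒢.dim_lt hG
    have hLG : Homog (mulL (X G) (𝒢.D F)) (𝒢.dim F - 1) :=
      homog_mulL hL (isHomogeneous_X ℝ G) (by omega)
    have h1 := hFK Φ (mulL (X G) (𝒢.D F)) (𝒢.dim F - 1) (𝒢.w F) (et e F) hLG hN1 hη1
      ⟨T0, fun t ht => (hT t ht).2 G hG⟩ (𝒢.dim F - k) l β hβ (hβ1.mulL (X G))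
      (by omega) (by
        have e1 : 𝒢.dim F - 1 - 2 * (𝒢.dim F - k) - l + 1 = s + 1 := by omega
        rw [e1]
        have h2 := (hstar G hG).sub (hβ2.mulL (X G))
        rwa [sub_sub_cancel] at h2)
    have e1 : 𝒢.dim F - 1 - 2 * (𝒢.dim F - k) - l = s := by omega
    have h2 := h1.1
    rw [e1, mulL_apply] at h2
    exact h2
  have e2 : β * ((et e F) ^ (s + 1) * ((𝒢.w F) ^ l * β)) =
      et e F * (β * ((et e F) ^ s * ((𝒢.w F) ^ l * β))) := by ring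
  rw [e2, A.apply_et, mul_neg, Finset.mul_sum] at hpos
  have h3 : 0 ≤ ∑ G ∈ univ.filter (fun G => G < F), (-1 : ℝ) ^ (𝒢.dim F - k) *
      (e G * 𝒢.D F (X G * (β * ((et e F) ^ s * ((𝒢.w F) ^ l * β))))) := by
    apply Finset.sum_nonneg
    intro G hG
    have h4 := mul_nonneg (he0 G) (hnn G (Finset.mem_filter.1 hG).2)
    convert h4 using 1
    ring
  linarith

end Pool.Agent.KF.G
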