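import Pool.Agent.KF.G.Stmts

/-!
Claim B of the proof of T* (MP_716236_co).
-/

set_option autoImplicit false

namespace Pool.Agent.KF.G

open MvPolynomial Finset

namespace B

/-- images modulo the annihilator of `mulL g L` -/
lemma inIm_of_mulL {Φ : Type} {L : Fn Φ} {g N x : MvPolynomial Φ ℝ} {l : ℕ}
    (h : InIm (mulL g L) N l x) : InIm L N l (g * x) := by
  obtain ⟨b, hb⟩ := h
  refine ⟨g * b, ?_⟩
  have h1 := ann_mulL.1 hb
  have h2 : g * x - N ^ l * (g * b) = g * (x - N ^ l * b) := by ring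
  rw [h2]
  exact h1

/-- the form `et e F` times `x` -/
lemma inIm_et {Φ V : Type} [Fintype Φ] [PartialOrder Φ] [AddCommGroup V] [Module ℝ V]
    (𝒢 : Geo Φ V) (e : Φ → ℝ) (F : Φ) {N x : MvPolynomial Φ ℝ} {l : ℕ}
    (h : ∀ G, G < F → e G ≠ 0 → InIm (mulL (X G) (𝒢.D F)) N l x) :
    InIm (𝒢.D F) N l (et e F * x) := by
  classical
  unfold et
  rw [neg_mul, Finset.sum_mul]
  refine InIm.neg (inIm_sum fun G hG => ?_)
  have hGF : G < F := (Finset.mem_filter.1 hG).2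
  rw [mul_assoc]
  by_cases h0 : e G = 0
  · rw [h0, C_0, zero_mul]
    exact inIm_of_ann l (ann_zero _)
  · exact (inIm_of_mulL (h G hGF h0)).mul_left _

end B

/-- claim B -/
theorem claimB : S_B := by
  intro hNR hKP2 hF2 hF1 hF0 hFK Φ V _ _ _ _ 𝒢 k c hc hw F hF hT l hl hI
  obtain ⟨e, _, he, T0, hT0⟩ := 𝒢.hr F
  refine hKP2 hFK Φ (𝒢.D F) (𝒢.dim F) (𝒢.w F) (et e F) (𝒢.D_homog F) (th_homog _ _ _)
    (et_homog _ _) ⟨T0, fun t ht => (hT0 t ht).1⟩ k l (c F) (hc.hom F hF) (by omega) (hw F hF) hI ?_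
  refine B.inIm_et 𝒢 e F fun G hG h0 => ?_
  have h1 := 𝒢.dim_lt hG
  have h2 : 𝒢.dim G + 1 ≠ 𝒢.dim F := fun h => h0 (he G h)
  exact hNR hF2 hF1 hF0 Φ V 𝒢 k c hc F G hG hF (hT G hG) (l + 1) (by omega)

end Pool.Agent.KF.G
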