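import Pool.Agent.KF.G.Stmts

/-!
Claim C of part G (MP_716236_co).
-/

set_option autoImplicit false

namespace Pool.Agent.KF.G

open MvPolynomial Finset

namespace Cx

lemma facet_zero {Φ V : Type} [Fintype Φ] [PartialOrder Φ] [AddCommGroup V] [Module ℝ V]
    (hF2 : S_F2) (hF1 : S_F1) (hF0 : S_F0) (𝒢 : Geo Φ V) (κ : Φ → Φ → ℝ) (hκ : Kap 𝒢 κ) (k : ℕ)
    (c : Φ → MvPolynomial Φ ℝ) (hc : Cls 𝒢 k c) (F T : Φ) (hT : T < F)
    (hd : 𝒢.dim T + 1 = 𝒢.dim F) (hk : k ≤ 𝒢.dim T) (l : ℕ)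
    (him : InIm (𝒢.D F) (𝒢.w F) l (c F)) (a : MvPolynomial Φ ℝ)
    (ha : Ann (𝒢.D T) (𝒢.w T ^ l * a)) : 𝒢.D T (a * c T) = 0 := by
  have h1 : Ann (𝒢.D T) (a - proj T a) := 𝒢.ann_sub_proj T a
  have hw : 𝒢.w T ∈ low T := th_mem_low _ _ _
  have h2 : Ann (𝒢.D T) (𝒢.w T ^ l * proj T a) := by
    have h3 := ha.sub (h1.mul_left (𝒢.w T ^ l))
    have e : 𝒢.w T ^ l * a - 𝒢.w T ^ l * (a - proj T a) = 𝒢.w T ^ l * proj T a := by ring
    rwa [e] at h3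
  have h3 := hF2 hF0 Φ V 𝒢 F T (𝒢.w T ^ l * proj T a) hT
    ((low T).mul_mem ((low T).pow_mem hw l) (proj_mem T a)) h2
  have h4 := (ann_pow_sub (hF1 hF0 Φ V 𝒢 F T hT) l).mul_right (proj T a)
  have h5 : Ann (𝒢.D F) (X T * (𝒢.w F ^ l * proj T a)) := by
    have h6 := h4.add h3
    have e : X T * (𝒢.w F ^ l - 𝒢.w T ^ l) * proj T a + X T * (𝒢.w T ^ l * proj T a) =
        X T * (𝒢.w F ^ l * proj T a) := by ring
    rwa [e] at h6
  have h6 : 𝒢.D F (X T * (proj T a * c F)) = 0 :=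
    (him.mulL (X T)).orth (ann_mulL.2 h5)
  have h7 : 𝒢.D F (X T * (proj T a * c F)) = 𝒢.D F (X T * (proj T a * c T)) := by
    have h8 := hc.up F T hT hk (proj T a)
    have e : X T * (c F - c T) * proj T a = X T * (proj T a * c F) - X T * (proj T a * c T) := by
      ring
    rw [e, map_sub, sub_eq_zero] at h8
    exact h8
  rw [h7] at h6
  obtain ⟨h8, h9⟩ := hκ T F hT hd
  rw [h9 _ ((low T).mul_mem (proj_mem T a) (hc.mem T hk))] at h6
  rcases mul_eq_zero.1 h6 with h10 | h10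
  · exact absurd h10 h8.ne'
  · rw [h1.apply_eq (c T)]
    exact h10

end Cx

/-- Claim C. -/
theorem claimC : S_C := by
  intro hF5 hDU hDN hF2 hF1 hF0 Φ V _ _ _ _ 𝒢 κ hκ k c hc F hkF hTS l hl him
  rcases hkF.eq_or_lt with hk | hk
  · rcases him.homog (𝒢.D_homog F) (th_homog _ _ _) (hc.hom F hkF) with h | h
    · exfalso
      have := h.1
      omega
    · exact h.2
  · refine hF5 hF2 hDN Φ V 𝒢 κ hκ k c hc F hk fun T hT hd => ?_
    by_contra hn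
    have hkT : k ≤ 𝒢.dim T := by omega
    obtain ⟨h1, -, h3⟩ := hTS T hT hkT hn
    apply h3
    refine InIm.mono (l' := l) (by omega) ?_
    refine hDU Φ (𝒢.D T) (𝒢.dim T) k l (𝒢.w T) (c T) (𝒢.D_homog T) (th_homog _ _ _)
      (hc.hom T hkT) hkT fun a _ ha => ?_
    exact Cx.facet_zero hF2 hF1 hF0 𝒢 κ hκ k c hc F T hT hd hkT l him a ha

end Pool.Agent.KF.G
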