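import Pool.Agent.KF.G.Stmts

/-!
Part G, module CC: construction of the classes of weights.
-/

set_option autoImplicit false

namespace Pool.Agent.KF.G

open MvPolynomial Finset

namespace CC

variable {Φ V : Type} [Fintype Φ] [PartialOrder Φ] [AddCommGroup V] [Module ℝ V]

open scoped Classical in
/-- the functional on monomials -/
noncomputable def fn (D : Fn Φ) (F : Φ) (c0 : Φ → MvPolynomial Φ ℝ) : Fn Φ :=
  (basisMonomials Φ ℝ).constr ℝ fun m =>
    if h : ∃ G, G < F ∧ G ∈ m.support then D (c0 h.choose * monomial m 1) else 0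

lemma fn_X {D : Fn Φ} {F : Φ} {c0 : Φ → MvPolynomial Φ ℝ}
    (hI : ∀ G H, G < F → H < F → Ann D (X G * (X H * (c0 G - c0 H)))) {G : Φ} (hG : G < F)
    (q : MvPolynomial Φ ℝ) : fn D F c0 (X G * q) = D (X G * (c0 G * q)) := by
  classical
  induction q using MvPolynomial.induction_on' with
  | monomial s a =>
    have h1 : (X G * monomial s a : MvPolynomial Φ ℝ) =
        a • (basisMonomials Φ ℝ) (Finsupp.single G 1 + s) := by
      rw [coe_basisMonomials, X, monomial_mul, smul_monomial]
      simp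
    have hex : ∃ H, H < F ∧ H ∈ (Finsupp.single G 1 + s).support :=
      ⟨G, hG, by simp⟩
    rw [h1, map_smul]
    unfold fn
    rw [Module.Basis.constr_basis, dif_pos hex]
    obtain ⟨hH, hHs⟩ := hex.choose_spec
    set H := hex.choose with hHdef
    have hm : (monomial (Finsupp.single G 1 + s) 1 : MvPolynomial Φ ℝ) =
        X G * monomial s 1 := by
      rw [X, monomial_mul, one_mul]
    have hma : (monomial s a : MvPolynomial Φ ℝ) = a • monomial s 1 := by
      rw [smul_monomial]; simp
    have key : D (c0 H * monomial (Finsupp.single G 1 + s) 1) =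
        D (X G * (c0 G * monomial s 1)) := by
      by_cases hGH : H = G
      · rw [hGH, hm]
        congr 1
        ring
      · have hsupp : H ∈ s.support := by
          rw [Finsupp.mem_support_iff, Finsupp.add_apply] at hHs
          rw [Finsupp.mem_support_iff]
          intro h0
          apply hHs
          rw [h0, Finsupp.single_apply, if_neg (fun h => hGH h.symm), add_zero]
        have hs1 : Finsupp.single H 1 ≤ s := by
          rw [Finsupp.single_le_iff]
          exact Nat.one_le_iff_ne_zero.2 (Finsupp.mem_support_iff.1 hsupp)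
        have hs : s = Finsupp.single H 1 + (s - Finsupp.single H 1) := by
          rw [add_tsub_cancel_of_le hs1]
        have hms : (monomial s 1 : MvPolynomial Φ ℝ) =
            X H * monomial (s - Finsupp.single H 1) 1 := by
          conv_lhs => rw [hs]
          rw [X, monomial_mul, one_mul]
        rw [hm, hms]
        have := hI G H hG hH (monomial (s - Finsupp.single H 1) 1)
        have e : X G * (X H * (c0 G - c0 H)) * monomial (s - Finsupp.single H 1) 1 =
            X G * (c0 G * (X H * monomial (s - Finsupp.single H 1) 1)) -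
            c0 H * (X G * (X H * monomial (s - Finsupp.single H 1) 1)) := by ring
        rw [e, map_sub, sub_eq_zero] at this
        exact this.symm
    rw [key, hma]
    have e2 : X G * (c0 G * (a • monomial s 1)) =
        a • (X G * (c0 G * monomial s 1) : MvPolynomial Φ ℝ) := by
      rw [mul_smul_comm, mul_smul_comm]
    rw [e2, map_smul]
  | add p q hp hq =>
    rw [mul_add, map_add, hp, hq, mul_add, mul_add, map_add]

/-- the main step -/
lemma step (hF2 : S_F2) (hF0 : S_F0) (hCH : S_CH) (𝒢 : Geo Φ V) (κ : Φ → Φ → ℝ)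
    (hκ : Kap 𝒢 κ) (k : ℕ) (c : Φ → ℝ)
    (hc : ∀ F, 𝒢.dim F = k + 1 → ∀ x ∈ 𝒢.W F, 𝒢.one x = 0 → (∑ G : Φ,
      @ite ℝ (G < F ∧ 𝒢.dim G = k) (Classical.propDecidable _) (κ G F * c G * 𝒢.l G x) 0) = 0)
    (c' : Φ → MvPolynomial Φ ℝ) (F : Φ)
    (ih : ∀ G < F, k ≤ 𝒢.dim G → c' G ∈ low G ∧ (c' G).IsHomogeneous k ∧
      (∀ H < G, k ≤ 𝒢.dim H → Ann (𝒢.D G) (X H * (c' G - c' H))) ∧
      (∀ H < G, 𝒢.dim H < k → Ann (𝒢.D G) (X H * c' G)) ∧
      (𝒢.dim G = k → 𝒢.D G (c' G) = c G)) (hk : k ≤ 𝒢.dim F) :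
    ∃ z ∈ low F, z.IsHomogeneous k ∧
      (∀ G < F, k ≤ 𝒢.dim G → Ann (𝒢.D F) (X G * (z - c' G))) ∧
      (∀ G < F, 𝒢.dim G < k → Ann (𝒢.D F) (X G * z)) ∧
      (𝒢.dim F = k → 𝒢.D F z = c F) := by
  classical
  rcases hk.eq_or_lt with hk | hk
  · -- dimension k
    obtain ⟨t, ht, hch, hcard⟩ := hCH Φ V 𝒢 F
    have hpos := 𝒢.D_pos F t ht hch hcard
    have hhom : (C (c F / 𝒢.D F (∏ G ∈ t, X G)) * ∏ G ∈ t, X G :
        MvPolynomial Φ ℝ).IsHomogeneous k := by
      have h1 : (∏ G ∈ t, X G : MvPolynomial Φ ℝ).IsHomogeneous (∑ G ∈ t, 1) :=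
        IsHomogeneous.prod t _ _ fun G _ => isHomogeneous_X ℝ G
      have h2 := (isHomogeneous_C Φ (c F / 𝒢.D F (∏ G ∈ t, X G))).mul h1
      rw [zero_add, Finset.sum_const, smul_eq_mul, mul_one, hcard, ← hk] at h2
      exact h2
    refine ⟨C (c F / 𝒢.D F (∏ G ∈ t, X G)) * ∏ G ∈ t, X G, ?_, hhom, ?_, ?_, ?_⟩
    · exact (low F).mul_mem (C_mem_low F _)
        (Subalgebra.prod_mem _ fun G hG => X_mem_low (ht G hG))
    · intro G hG hkG
      have := 𝒢.dim_lt hG
      omega
    · intro G hG _
      exact ann_of_lt (𝒢.D_homog F) ((isHomogeneous_X ℝ G).mul hhom) (by omega)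
    · intro _
      rw [C_mul', map_smul, smul_eq_mul, div_mul_cancel₀ _ hpos.ne']
  · -- dimension larger than k
    let c0 : Φ → MvPolynomial Φ ℝ := fun G => if k ≤ 𝒢.dim G then c' G else 0
    have c0_pos : ∀ G, k ≤ 𝒢.dim G → c0 G = c' G := fun G h => if_pos h
    have c0_neg : ∀ G, 𝒢.dim G < k → c0 G = 0 := fun G h => if_neg (not_le.2 h)
    have c0_low : ∀ G < F, c0 G ∈ low G := by
      intro G hG
      by_cases h : k ≤ 𝒢.dim G
      · rw [c0_pos G h]; exact (ih G hG h).1
      · rw [c0_neg G (not_le.1 h)]; exact (low G).zero_mem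
    have c0_hom : ∀ G < F, (c0 G).IsHomogeneous k := by
      intro G hG
      by_cases h : k ≤ 𝒢.dim G
      · rw [c0_pos G h]; exact (ih G hG h).2.1
      · rw [c0_neg G (not_le.1 h)]; exact isHomogeneous_zero _ _ _
    -- compatibility
    have hcomp : ∀ G H, G < F → H < G → Ann (𝒢.D F) (X G * (X H * (c0 G - c0 H))) := by
      intro G H hG hH
      apply hF2 hF0 Φ V 𝒢 F G _ hG
      · exact (low G).mul_mem (X_mem_low hH) ((low G).sub_mem (c0_low G hG)
          (low_mono hH.le (c0_low H (hH.trans hG))))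
      · by_cases h : k ≤ 𝒢.dim G
        · rw [c0_pos G h]
          by_cases h' : k ≤ 𝒢.dim H
          · rw [c0_pos H h']; exact (ih G hG h).2.2.1 H hH h'
          · rw [c0_neg H (not_le.1 h'), sub_zero]
            exact (ih G hG h).2.2.2.1 H hH (not_le.1 h')
        · have h1 : c0 G = 0 := c0_neg G (not_le.1 h)
          have h2 : c0 H = 0 := c0_neg H ((𝒢.dim_lt hH).trans (not_le.1 h))
          rw [h1, h2, sub_zero, mul_zero]
          exact ann_zero _
    have hI : ∀ G H, G < F → H < F → Ann (𝒢.D F) (X G * (X H * (c0 G - c0 H))) := by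
      intro G H hG hH
      by_cases h1 : G ≤ H
      · rcases h1.eq_or_lt with rfl | h1
        · rw [sub_self, mul_zero, mul_zero]; exact ann_zero _
        · have := (hcomp H G hH h1).neg
          convert this using 1
          ring
      · by_cases h2 : H ≤ G
        · rcases h2.eq_or_lt with rfl | h2
          · rw [sub_self, mul_zero, mul_zero]; exact ann_zero _
          · exact hcomp G H hG h2
        · intro q
          have := 𝒢.D_inc F G H h1 h2 ((c0 G - c0 H) * q)
          rw [← this]
          congr 1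
          ring
    have hLX := fun G (hG : G < F) q => fn_X (D := 𝒢.D F) (F := F) (c0 := c0) hI hG q
    -- the value on the linear forms
    have hth : ∀ x ∈ 𝒢.W F, 𝒢.one x = 0 → fn (𝒢.D F) F c0 (th 𝒢.l F x) = 0 := by
      intro x hx hx1
      have h1 : fn (𝒢.D F) F c0 (th 𝒢.l F x) =
          ∑ G ∈ univ.filter (fun G => G < F), 𝒢.l G x * 𝒢.D F (X G * c0 G) := by
        unfold th
        rw [map_sum]
        apply Finset.sum_congr (by congr)
        intro G hG
        have h2 := hLX G (Finset.mem_filter.1 hG).2 1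
        rw [mul_one, mul_one] at h2
        rw [C_mul', map_smul, smul_eq_mul, h2]
      rw [h1]
      by_cases hd : 𝒢.dim F = k + 1
      · rw [← hc F hd x hx hx1, Finset.sum_filter]
        apply Finset.sum_congr rfl
        intro G _
        by_cases hG : G < F
        · rw [if_pos hG]
          by_cases hGk : 𝒢.dim G = k
          · rw [if_pos ⟨hG, hGk⟩, c0_pos G hGk.ge]
            obtain ⟨hm, -, -, -, hv⟩ := ih G hG hGk.ge
            rw [(hκ G F hG (by omega)).2 _ hm, hv hGk]
            ring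
          · rw [if_neg (fun h => hGk h.2)]
            have : 𝒢.dim G < k := by
              have := 𝒢.dim_lt hG
              omega
            rw [c0_neg G this, mul_zero, map_zero, mul_zero]
        · rw [if_neg hG, if_neg (fun h => hG h.1)]
      · apply Finset.sum_eq_zero
        intro G hG
        have : 𝒢.D F (X G * c0 G) = 0 :=
          𝒢.D_homog F (1 + k) _ ((isHomogeneous_X ℝ G).mul (c0_hom G (Finset.mem_filter.1 hG).2))
            (by omega)
        rw [this, mul_zero]
    have hth' : ∀ x ∈ 𝒢.W F, 𝒢.one x = 0 → ∀ q, fn (𝒢.D F) F c0 (th 𝒢.l F x * proj F q) = 0 := by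
      intro x hx hx1 q
      induction q using MvPolynomial.induction_on with
      | C a =>
        have h1 : proj F (C a) = C a := by unfold proj; exact algHom_C _ a
        rw [h1, mul_comm, C_mul', map_smul, hth x hx hx1, smul_zero]
      | add p q hp hq => rw [map_add, mul_add, map_add, hp, hq, add_zero]
      | mul_X p i hp =>
        rw [map_mul (proj F), proj_X]
        split_ifs with h
        · have e : th 𝒢.l F x * (proj F p * X i) = X i * (th 𝒢.l F x * proj F p) := by ring
          rw [e, hLX i h]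
          have := 𝒢.D_lin F x hx hx1 (X i * (c0 i * proj F p))
          rw [← this]
          congr 1
          ring
        · rw [mul_zero, mul_zero, map_zero]
    obtain ⟨z, hz, hzh, hzL⟩ := 𝒢.PD F (𝒢.dim F - k) (fn (𝒢.D F) F c0)
      (by
        intro G H hG hH h1 h2 q _ _
        rw [hLX G hG]
        have := 𝒢.D_inc F G H h1 h2 (c0 G * q)
        rw [← this]
        congr 1
        ring)
      (by
        intro x hx hx1 q hq _
        have := hth' x hx hx1 q
        rwa [proj_of_mem hq] at this)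
    have hzk : z.IsHomogeneous k := by
      have e : 𝒢.dim F - (𝒢.dim F - k) = k := by omega
      rwa [e] at hzh
    have hfin : ∀ G < F, Ann (𝒢.D F) (X G * (z - c0 G)) := by
      intro G hG
      apply ann_of_homog (𝒢.D_homog F) ((isHomogeneous_X ℝ G).mul (hzk.sub (c0_hom G hG)))
      intro m q hq hm
      have h1 : X G * (z - c0 G) * q = (q - proj F q) * (X G * (z - c0 G)) +
          (z * (X G * proj F q) - X G * (c0 G * proj F q)) := by ring
      have h2 : (X G * proj F q).IsHomogeneous (𝒢.dim F - k) := by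
        have := (isHomogeneous_X ℝ G).mul (proj_homog (F := F) hq)
        convert this using 1
        omega
      rw [h1, map_add, 𝒢.ann_sub_proj F q, zero_add, map_sub,
        ← hzL _ ((low F).mul_mem (X_mem_low hG) (proj_mem F q)) h2, hLX G hG, sub_self]
    refine ⟨z, hz, hzk, ?_, ?_, fun h => absurd h (by omega)⟩
    · intro G hG hkG
      have := hfin G hG
      rwa [c0_pos G hkG] at this
    · intro G hG hkG
      have := hfin G hG
      rwa [c0_neg G hkG, sub_zero] at this

end CC

theorem cc : S_CC := by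
  classical
  intro hF2 hF0 hCH Φ V _ _ _ _ 𝒢 κ hκ k c hc
  have hc' : ∀ F, 𝒢.dim F = k + 1 → ∀ x ∈ 𝒢.W F, 𝒢.one x = 0 → (∑ G : Φ,
      @ite ℝ (G < F ∧ 𝒢.dim G = k) (Classical.propDecidable _) (κ G F * c G * 𝒢.l G x) 0) = 0 := by
    intro F hF x hx hx1
    have h := hc F hF x hx hx1
    rw [Finset.sum_filter] at h
    convert h
  have main : ∀ n : ℕ, ∃ c' : Φ → MvPolynomial Φ ℝ, ∀ F, 𝒢.dim F < n → k ≤ 𝒢.dim F →
      c' F ∈ low F ∧ (c' F).IsHomogeneous k ∧
      (∀ H < F, k ≤ 𝒢.dim H → Ann (𝒢.D F) (X H * (c' F - c' H))) ∧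
      (∀ H < F, 𝒢.dim H < k → Ann (𝒢.D F) (X H * c' F)) ∧
      (𝒢.dim F = k → 𝒢.D F (c' F) = c F) := by
    intro n
    induction n with
    | zero => exact ⟨fun _ => 0, fun F hF => absurd hF (by omega)⟩
    | succ n ihn =>
      obtain ⟨c', hc''⟩ := ihn
      have hst : ∀ F, ∃ z, 𝒢.dim F = n → k ≤ 𝒢.dim F → z ∈ low F ∧ z.IsHomogeneous k ∧
          (∀ G < F, k ≤ 𝒢.dim G → Ann (𝒢.D F) (X G * (z - c' G))) ∧
          (∀ G < F, 𝒢.dim G < k → Ann (𝒢.D F) (X G * z)) ∧
          (𝒢.dim F = k → 𝒢.D F z = c F) := by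
        intro F
        by_cases h : 𝒢.dim F = n ∧ k ≤ 𝒢.dim F
        · obtain ⟨z, hz⟩ := CC.step hF2 hF0 hCH 𝒢 κ hκ k c hc' c' F
            (fun G hG hkG => hc'' G (by have := 𝒢.dim_lt hG; omega) hkG) h.2
          exact ⟨z, fun _ _ => hz⟩
        · exact ⟨0, fun h1 h2 => absurd ⟨h1, h2⟩ h⟩
      choose z hz using hst
      refine ⟨fun F => if 𝒢.dim F = n then z F else c' F, ?_⟩
      intro F hF hkF
      have hlow : ∀ G < F, (if 𝒢.dim G = n then z G else c' G) = c' G := by
        intro G hG
        have := 𝒢.dim_lt hG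
        rw [if_neg (by omega)]
      by_cases h : 𝒢.dim F = n
      · obtain ⟨h1, h2, h3, h4, h5⟩ := hz F h hkF
        refine ⟨?_, ?_, ?_, ?_, ?_⟩
        · simp only [if_pos h]; exact h1
        · simp only [if_pos h]; exact h2
        · intro H hH hkH
          simp only [if_pos h, hlow H hH]; exact h3 H hH hkH
        · intro H hH hkH
          simp only [if_pos h]; exact h4 H hH hkH
        · intro hFk
          simp only [if_pos h]; exact h5 hFk
      · obtain ⟨h1, h2, h3, h4, h5⟩ := hc'' F (by omega) hkF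
        refine ⟨?_, ?_, ?_, ?_, ?_⟩
        · simp only [if_neg h]; exact h1
        · simp only [if_neg h]; exact h2
        · intro H hH hkH
          simp only [if_neg h, hlow H hH]; exact h3 H hH hkH
        · intro H hH hkH
          simp only [if_neg h]; exact h4 H hH hkH
        · intro hFk
          simp only [if_neg h]; exact h5 hFk
  obtain ⟨c', h⟩ := main (univ.sup 𝒢.dim + 1)
  have h' := fun F => h F (Nat.lt_succ_of_le (Finset.le_sup (f := 𝒢.dim) (Finset.mem_univ F)))
  refine ⟨c', ⟨fun F hF => (h' F hF).1, fun F hF => (h' F hF).2.1, ?_, ?_⟩,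
    fun F hF => (h' F hF.ge).2.2.2.2 hF⟩
  · intro F G hG hkG
    exact (h' F (hkG.trans (𝒢.dim_lt hG).le)).2.2.1 G hG hkG
  · intro F G hG hkF hkG
    exact (h' F hkF).2.2.2.1 G hG hkG

end Pool.Agent.KF.G
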