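import Pool.Agent.KF.G.Stmts

/-!
Complete chains (`S_CH`) and the facet constants (`S_F3`).
-/

set_option autoImplicit false

namespace Pool.Agent.KF.G

open MvPolynomial Finset

namespace CH

variable {Φ V : Type} [Fintype Φ] [PartialOrder Φ] [AddCommGroup V] [Module ℝ V]

/-- Complete chains. -/
lemma chain (𝒢 : Geo Φ V) (n : ℕ) : ∀ F : Φ, 𝒢.dim F = n → ∃ t : Finset Φ, (∀ G ∈ t, G < F) ∧
    IsChain (· ≤ ·) (t : Set Φ) ∧ t.card = n := by
  classical
  induction n with
  | zero =>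
    intro F _
    refine ⟨∅, by simp, by simp, by simp⟩
  | succ n ih =>
    intro F hF
    obtain ⟨G, hG⟩ := 𝒢.vert F (by omega)
    obtain ⟨T, -, hTF, hT⟩ := 𝒢.facet hG
    obtain ⟨t, ht, hc, hcard⟩ := ih T (by omega)
    have hTt : T ∉ t := fun h => lt_irrefl _ (ht T h)
    refine ⟨insert T t, ?_, ?_, ?_⟩
    · intro H hH
      rcases Finset.mem_insert.1 hH with rfl | hH
      · exact hTF
      · exact (ht H hH).trans hTF
    · rw [Finset.coe_insert]
      exact hc.insert fun H hH _ => Or.inr (ht H hH).le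
    · rw [Finset.card_insert_of_notMem hTt, hcard]

/-- The homogeneous components of elements of `low G` are in `low G`. -/
lemma comp_mem {G : Φ} {p : MvPolynomial Φ ℝ} (hp : p ∈ low G) (m : ℕ) :
    homogeneousComponent m p ∈ low G := by
  classical
  have h1 : homogeneousComponent m p = proj G (homogeneousComponent m p) := by
    conv_lhs => rw [← proj_of_mem hp, ← sum_homogeneousComponent p, map_sum, map_sum]
    have h2 : ∀ i, homogeneousComponent m (proj G (homogeneousComponent i p)) =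
        if i = m then proj G (homogeneousComponent m p) else 0 := by
      intro i
      have h3 := proj_homog (F := G) (homogeneousComponent_isHomogeneous i p)
      rw [homogeneousComponent_of_mem ((mem_homogeneousSubmodule _ _).2 h3)]
      by_cases hi : i = m
      · subst hi
        rw [if_pos rfl]
      · rw [if_neg hi, if_neg (Ne.symm hi)]
    rw [Finset.sum_congr rfl (fun i _ => h2 i), Finset.sum_ite_eq']
    split_ifs with h4
    · rfl
    · rw [mem_range] at h4
      rw [homogeneousComponent_eq_zero _ _ (by omega), map_zero]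
  rw [h1]
  exact proj_mem G _

/-- The constant for one facet. -/
lemma facet_const (hF0 : S_F0) (𝒢 : Geo Φ V) (G F : Φ) (hGF : G < F)
    (hd : 𝒢.dim G + 1 = 𝒢.dim F) :
    ∃ κ : ℝ, 0 < κ ∧ ∀ p ∈ low G, 𝒢.D F (X G * p) = κ * 𝒢.D G p := by
  classical
  obtain ⟨z, -, hz, hL⟩ := 𝒢.PD G (𝒢.dim G) (mulL (X G) (𝒢.D F)) (by
    intro H K hH hK h1 h2 q _ _
    rw [mulL_apply]
    have h3 := 𝒢.D_inc F H K h1 h2 (X G * q)
    rw [← h3]
    congr 1
    ring) (by
    intro x hx hx1 q _ _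
    rw [mulL_apply]
    have h1 := hF0 Φ V 𝒢 F G x hGF hx q
    have h2 := 𝒢.D_lin F x (𝒢.W_mono hGF.le hx) hx1 (X G * q)
    have h3 : X G * (th 𝒢.l F x - th 𝒢.l G x) * q =
        th 𝒢.l F x * (X G * q) - X G * (th 𝒢.l G x * q) := by ring
    rw [h3, map_sub, h2, zero_sub, neg_eq_zero] at h1
    exact h1)
  rw [Nat.sub_self] at hz
  have hzC : z = C (coeff 0 z) := by
    rw [← totalDegree_eq_zero_iff_eq_C]
    by_cases hz0 : z = 0
    · rw [hz0, totalDegree_zero]
    · exact hz.totalDegree hz0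
  have key : ∀ p ∈ low G, 𝒢.D F (X G * p) = coeff 0 z * 𝒢.D G p := by
    intro p hp
    have hh : Homog (mulL (X G) (𝒢.D F)) (𝒢.dim G) := by
      have h1 := homog_mulL (𝒢.D_homog F) (isHomogeneous_X ℝ G) (j := 1) (by omega)
      have h2 : 𝒢.dim F - 1 = 𝒢.dim G := by omega
      rwa [h2] at h1
    have h3 := hh.apply_eq p
    rw [mulL_apply] at h3
    rw [h3, hL _ (comp_mem hp _) (homogeneousComponent_isHomogeneous _ _),
      (𝒢.D_homog G).apply_eq p]
    conv_lhs => rw [hzC]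
    rw [C_mul', map_smul, smul_eq_mul]
  refine ⟨coeff 0 z, ?_, key⟩
  obtain ⟨t, ht, hc, hcard⟩ := chain 𝒢 (𝒢.dim G) G rfl
  have hGt : G ∉ t := fun h => lt_irrefl _ (ht G h)
  have h1 := 𝒢.D_pos G t ht hc hcard
  have h2 := 𝒢.D_pos F (insert G t) (by
    intro H hH
    rcases Finset.mem_insert.1 hH with rfl | hH
    · exact hGF
    · exact (ht H hH).trans hGF) (by
    rw [Finset.coe_insert]
    exact hc.insert fun H hH _ => Or.inr (ht H hH).le) (by
    rw [Finset.card_insert_of_notMem hGt, hcard, hd])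
  rw [Finset.prod_insert hGt, key _ (Subalgebra.prod_mem _ fun H hH => X_mem_low (ht H hH))] at h2
  exact (pos_iff_pos_of_mul_pos h2).2 h1

end CH

theorem ch : S_CH := fun _ _ _ _ _ _ 𝒢 F => CH.chain 𝒢 (𝒢.dim F) F rfl

theorem f3 : S_F3 := by
  classical
  intro hF0 _ Φ V _ _ _ _ 𝒢
  have h : ∀ G F : Φ, ∃ κ : ℝ, G < F → 𝒢.dim G + 1 = 𝒢.dim F →
      0 < κ ∧ ∀ p ∈ low G, 𝒢.D F (X G * p) = κ * 𝒢.D G p := by
    intro G F
    by_cases h1 : G < F ∧ 𝒢.dim G + 1 = 𝒢.dim F
    · obtain ⟨κ, hκ⟩ := CH.facet_const hF0 𝒢 G F h1.1 h1.2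
      exact ⟨κ, fun _ _ => hκ⟩
    · exact ⟨0, fun h2 h3 => absurd ⟨h2, h3⟩ h1⟩
  choose κ hκ using h
  exact ⟨κ, fun G F => hκ G F⟩

end Pool.Agent.KF.G
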