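import Pool.Agent.KF.G.Stmts

/-!
Module KFG_DN of the proof of BAL (MP_716236_co): `dn : S_DN`.
-/

set_option autoImplicit false

namespace Pool.Agent.KF.G

open MvPolynomial Finset

/-- facet case: an element below the facet `T` of `G` that `X_T` kills in `G` is killed in `T` -/
lemma dn_facet {Φ V : Type} [Fintype Φ] [PartialOrder Φ] [AddCommGroup V] [Module ℝ V]
    {𝒢 : Geo Φ V} {κ : Φ → Φ → ℝ} (hκ : Kap 𝒢 κ) {G T : Φ} (hT : T < G)
    (hd : 𝒢.dim T + 1 = 𝒢.dim G) {p : MvPolynomial Φ ℝ} (hp : p ∈ low T)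
    (h : Ann (𝒢.D G) (X T * p)) : Ann (𝒢.D T) p := by
  intro q
  obtain ⟨hpos, hk⟩ := hκ T G hT hd
  have h1 : 𝒢.D T (p * q) = 𝒢.D T (p * proj T q) := by
    have h2 := (𝒢.ann_sub_proj T q).apply_eq p
    rw [mul_comm p q, mul_comm p (proj T q)]
    exact h2
  rw [h1]
  have h3 := hk (p * proj T q) ((low T).mul_mem hp (proj_mem T q))
  have h4 := h (proj T q)
  rw [mul_assoc, h3] at h4
  exact (mul_eq_zero.1 h4).resolve_left hpos.ne'

/-- an element below the face `H` of `G` that `X_H` kills in `G` is killed in `H` -/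
theorem dn : S_DN := by
  intro Φ V _ _ _ _ 𝒢 κ hκ
  have key : ∀ (n : ℕ) (G H : Φ) (p : MvPolynomial Φ ℝ), 𝒢.dim G = n → H < G → p ∈ low H →
      Ann (𝒢.D G) (X H * p) → Ann (𝒢.D H) p := by
    intro n
    induction n using Nat.strong_induction_on with
    | _ n ih =>
      intro G H p hn hHG hp hA
      obtain ⟨T, hHT, hTG, hd⟩ := 𝒢.facet hHG
      rcases hHT.eq_or_lt with rfl | hlt
      · exact dn_facet hκ hTG hd hp hA
      · have h1 : Ann (𝒢.D T) (X H * p) :=
          dn_facet hκ hTG hd ((low T).mul_mem (X_mem_low hlt) (low_mono hlt.le hp))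
            (hA.mul_left _)
        exact ih (𝒢.dim T) (by omega) T H p rfl hlt hp h1
  intro G H p hHG hp hA
  exact key _ G H p rfl hHG hp hA

end Pool.Agent.KF.G
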