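import Pool.Agent.KF.G.Stmts

/-!
# DU: finite dimensional duality
-/

set_option autoImplicit false

namespace Pool.Agent.KF.G

open MvPolynomial Finset

namespace DU

/-- homogeneous polynomials in finitely many variables form a finite dimensional space -/
lemma finite_homogeneous (Φ : Type) [Fintype Φ] (m : ℕ) :
    Module.Finite ℝ (homogeneousSubmodule Φ ℝ m) := by
  exact Module.Finite.iff_fg.2 (homogeneousSubmodule_fg (σ := Φ) (R := ℝ) m)

end DU

theorem du : S_DU := by
  intro Φ _ L n j l N x hL hN hx hjn h
  classical
  have hNl : (N ^ l).IsHomogeneous l := by simpa using hN.pow l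
  by_cases hlj : j < l
  · apply inIm_of_ann
    apply ann_of_homog hL hx
    intro m q hq hjm
    obtain rfl : m = n - j := by omega
    rw [mul_comm]
    exact h q hq (ann_of_lt hL (hNl.mul hq) (by omega))
  · have hlj : l ≤ j := not_lt.1 hlj
    let A := homogeneousSubmodule Φ ℝ (n - j)
    let B := homogeneousSubmodule Φ ℝ (j - l)
    have hB : Module.Finite ℝ B := DU.finite_homogeneous Φ (j - l)
    let α : A →ₗ[ℝ] Module.Dual ℝ B :=
      LinearMap.mk₂ ℝ (fun a b => L (N ^ l * a * b))
        (fun a a' b => by
          simp only [Submodule.coe_add]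
          rw [← map_add]; congr 1; ring)
        (fun c a b => by
          simp only [Submodule.coe_smul]
          rw [← map_smul]; congr 1
          simp only [MvPolynomial.smul_eq_C_mul]; ring)
        (fun a b b' => by
          simp only [Submodule.coe_add]
          rw [← map_add]; congr 1; ring)
        (fun c a b => by
          simp only [Submodule.coe_smul]
          rw [← map_smul]; congr 1
          simp only [MvPolynomial.smul_eq_C_mul]; ring)
    have hα : ∀ (a : A) (b : B), α a b = L (N ^ l * a * b) := fun a b => rfl
    let f : Module.Dual ℝ A := (L ∘ₗ LinearMap.mulRight ℝ x) ∘ₗ A.subtype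
    have hf : ∀ a : A, f a = L (a * x) := fun a => rfl
    have hfa : f ∈ (LinearMap.ker α).dualAnnihilator := by
      rw [Submodule.mem_dualAnnihilator]
      intro a ha
      rw [LinearMap.mem_ker] at ha
      rw [hf]
      have haA : (a : MvPolynomial Φ ℝ).IsHomogeneous (n - j) := a.2
      apply h _ haA
      apply ann_of_homog hL (hNl.mul haA)
      intro m q hq hm
      obtain rfl : m = j - l := by omega
      have := hα a ⟨q, hq⟩
      rw [ha] at this
      simpa using this.symm
    rw [← LinearMap.range_dualMap_eq_dualAnnihilator_ker] at hfa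
    obtain ⟨g, hg⟩ := hfa
    obtain ⟨b, hb⟩ := (Module.evalEquiv ℝ B).surjective g
    refine ⟨b, ?_⟩
    have hbB : (b : MvPolynomial Φ ℝ).IsHomogeneous (j - l) := b.2
    have hNb : (N ^ l * (b : MvPolynomial Φ ℝ)).IsHomogeneous j := by
      have := hNl.mul hbB
      rwa [Nat.add_sub_cancel' hlj] at this
    apply ann_of_homog hL (hx.sub hNb)
    intro m q hq hjm
    obtain rfl : m = n - j := by omega
    have h1 : f ⟨q, hq⟩ = α ⟨q, hq⟩ b := by
      rw [← hg, LinearMap.dualMap_apply, ← hb, Module.evalEquiv_apply]
      rfl
    rw [hf, hα] at h1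
    simp only at h1
    rw [sub_mul, map_sub, mul_comm x q, h1, sub_eq_zero]
    congr 1
    ring

end Pool.Agent.KF.G
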