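import Pool.Agent.KF.G.Stmts

/-!
Part G of BAL: restriction of the linear forms (`S_F0`) and of the ample forms (`S_F1`).
-/

set_option autoImplicit false

namespace Pool.Agent.KF.G

open MvPolynomial Finset

namespace F0aux

variable {Φ V : Type} [Fintype Φ] [PartialOrder Φ] [AddCommGroup V] [Module ℝ V]

open scoped Classical in
lemma th_diff (l : Φ → V →ₗ[ℝ] ℝ) {F G : Φ} (hGF : G < F) (x : V) :
    th l F x - th l G x =
      ∑ H ∈ (univ.filter (fun H => H < F)) \ (univ.filter (fun H => H < G)),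
        (C (l H x) * X H : MvPolynomial Φ ℝ) := by
  have hsub : (univ.filter (fun H => H < G)) ⊆ (univ.filter (fun H : Φ => H < F)) := by
    intro H hH
    simp only [mem_filter, mem_univ, true_and] at hH ⊢
    exact hH.trans hGF
  have := Finset.sum_sdiff (f := fun H => (C (l H x) * X H : MvPolynomial Φ ℝ)) hsub
  unfold th
  rw [← this]
  ring

end F0aux

theorem f0 : S_F0 := by
  classical
  intro Φ V _ _ _ _ 𝒢 F G x hGF hx
  rw [F0aux.th_diff 𝒢.l hGF x, Finset.mul_sum]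
  apply ann_sum
  intro H hH
  simp only [mem_sdiff, mem_filter, mem_univ, true_and] at hH
  obtain ⟨_, hHG⟩ := hH
  by_cases hGH : G ≤ H
  · rw [𝒢.l_zero hGH x hx]
    simpa using ann_zero (𝒢.D F)
  · have hHG' : ¬ H ≤ G := by
      intro h
      rcases h.lt_or_eq with h1 | h1
      · exact hHG h1
      · exact hGH h1.symm.le
    intro q
    have h1 := 𝒢.D_inc F G H hGH hHG' (C (𝒢.l H x) * q)
    have h2 : X G * (C (𝒢.l H x) * X H) * q = X G * (X H * (C (𝒢.l H x) * q)) := by ring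
    rw [h2]
    exact h1

theorem f1 : S_F1 := by
  intro h0 Φ V _ _ _ _ 𝒢 F G hGF
  have hG : 𝒢.pt G ∈ 𝒢.W G := 𝒢.pt_mem G
  have h1 := h0 Φ V 𝒢 F G (𝒢.pt G) hGF hG
  have hv : 𝒢.pt G - 𝒢.pt F ∈ 𝒢.W F :=
    (𝒢.W F).sub_mem (𝒢.W_mono hGF.le hG) (𝒢.pt_mem F)
  have hv1 : 𝒢.one (𝒢.pt G - 𝒢.pt F) = 0 := by
    rw [map_sub, 𝒢.pt_one, 𝒢.pt_one, sub_self]
  have h2 : Ann (𝒢.D F) (th 𝒢.l F (𝒢.pt G - 𝒢.pt F)) := fun q => 𝒢.D_lin F _ hv hv1 q
  have h3 := h1.sub (h2.mul_left (X G))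
  have h4 : X G * (th 𝒢.l F (𝒢.pt G) - th 𝒢.l G (𝒢.pt G)) -
      X G * th 𝒢.l F (𝒢.pt G - 𝒢.pt F) = X G * (𝒢.w F - 𝒢.w G) := by
    rw [th_sub]
    unfold Geo.w
    ring
  rw [h4] at h3
  exact h3

end Pool.Agent.KF.G
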