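import Pool.Agent.KF.G.Stmts

/-!
Part G, F2: the restriction of annihilators to stars; homogeneous components in `low F`.
-/

set_option autoImplicit false

namespace Pool.Agent.KF.G

open MvPolynomial Finset

/-- the homogeneous components of an element of `low F` are in `low F` -/
theorem component_mem_low {Φ : Type} [PartialOrder Φ] (F : Φ) (p : MvPolynomial Φ ℝ)
    (h : p ∈ low F) (m : ℕ) : homogeneousComponent m p ∈ low F := by
  classical
  rw [mem_supported] at h ⊢
  intro i hi
  have hi' : i ∈ (homogeneousComponent m p).vars := hi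
  rw [mem_vars_iff_mem_support] at hi'
  obtain ⟨d, hd, hid⟩ := hi'
  refine h ?_
  have : i ∈ p.vars := by
    rw [mem_vars_iff_mem_support]
    refine ⟨d, ?_, hid⟩
    rw [mem_support_iff] at hd ⊢
    rw [coeff_homogeneousComponent] at hd
    intro h0
    rw [h0, ite_self] at hd
    exact hd rfl
  exact this

namespace F2

variable {Φ V : Type} [Fintype Φ] [PartialOrder Φ] [AddCommGroup V] [Module ℝ V]

theorem hom_case (h0 : S_F0) (𝒢 : Geo Φ V) {F G : Φ} (hGF : G < F) {p : MvPolynomial Φ ℝ} {m : ℕ}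
    (hm : p.IsHomogeneous m) (hp : p ∈ low G) (ha : Ann (𝒢.D G) p) : Ann (𝒢.D F) (X G * p) := by
  intro q
  set L : Fn Φ := 𝒢.D F ∘ₗ LinearMap.mulLeft ℝ (X G * q) with hL
  have hLa : ∀ r, L r = 𝒢.D F (X G * q * r) := fun r => rfl
  obtain ⟨z, -, -, hz⟩ := 𝒢.PD G m L (by
    intro H K _ _ hHK hKH q' _ _
    rw [hLa]
    have := 𝒢.D_inc F H K hHK hKH (X G * q * q')
    rw [← this]
    congr 1
    ring) (by
    intro x hx hx1 q' _ _
    rw [hLa]
    have h1 := h0 Φ V 𝒢 F G x hGF hx (q * q')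
    have h2 := 𝒢.D_lin F x (𝒢.W_mono hGF.le hx) hx1 (X G * (q * q'))
    rw [mul_sub, sub_mul, map_sub, sub_eq_zero] at h1
    have e1 : X G * q * (th 𝒢.l G x * q') = X G * th 𝒢.l G x * (q * q') := by ring
    have e2 : X G * th 𝒢.l F x * (q * q') = th 𝒢.l F x * (X G * (q * q')) := by ring
    rw [e1, ← h1, e2, h2])
  have h3 := hz p hp hm
  have h4 := ha z
  rw [mul_comm z p, h4, hLa] at h3
  rw [← h3]
  congr 1
  ring

end F2

theorem f2 : S_F2 := by
  intro h0 Φ V _ _ _ _ 𝒢 F G p hGF hp ha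
  classical
  have h1 : X G * p = ∑ i ∈ range (p.totalDegree + 1), X G * homogeneousComponent i p := by
    rw [← Finset.mul_sum, sum_homogeneousComponent]
  rw [h1]
  refine ann_sum fun i _ => ?_
  exact F2.hom_case h0 𝒢 hGF (homogeneousComponent_isHomogeneous i p) (component_mem_low G p hp i)
    (ha.component (𝒢.D_homog G) i)

end Pool.Agent.KF.G
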