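import Pool.Agent.KF.G.Stmts

/-!
Part G, F5: a class that vanishes on all facets vanishes.
-/

set_option autoImplicit false

namespace Pool.Agent.KF.G

open MvPolynomial Finset

namespace F5

variable {Φ : Type}

/-- A homogeneous polynomial of positive degree is killed by a linear functional if all multiples
of variables are. -/
theorem vanish {L : Fn Φ} {q : MvPolynomial Φ ℝ} {m : ℕ} (hq : q.IsHomogeneous m) (hm : 0 < m)
    (h : ∀ (H : Φ) (r : MvPolynomial Φ ℝ), L (X H * r) = 0) : L q = 0 := by
  classical
  rw [MvPolynomial.as_sum q, map_sum]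
  refine Finset.sum_eq_zero fun v hv => ?_
  have hdeg := hq (mem_support_iff.1 hv)
  have hv0 : v ≠ 0 := by
    rintro rfl
    rw [map_zero] at hdeg
    omega
  obtain ⟨H, hH⟩ : ∃ H, v H ≠ 0 := by
    by_contra hc
    push Not at hc
    exact hv0 (Finsupp.ext hc)
  obtain ⟨r, hr⟩ : (X H : MvPolynomial Φ ℝ) ∣ monomial v (coeff v q) :=
    X_dvd_monomial.2 (Or.inr hH)
  rw [hr]
  exact h H r

/-- Restriction of the linear forms. -/
theorem f0 : S_F0 := by
  classical
  intro Φ V _ _ _ _ 𝒢 F G x hGF hx
  have h1 : ∀ E : Φ, th 𝒢.l E x = ∑ H, if H < E then C (𝒢.l H x) * X H else 0 := by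
    intro E
    unfold th
    rw [Finset.sum_filter]
  rw [h1, h1, ← Finset.sum_sub_distrib, Finset.mul_sum]
  refine ann_sum fun H _ => ?_
  by_cases hHG : H < G
  · rw [if_pos (hHG.trans hGF), if_pos hHG, sub_self, mul_zero]
    exact ann_zero _
  · rw [if_neg hHG, sub_zero]
    by_cases hHF : H < F
    · rw [if_pos hHF]
      by_cases hGH : G ≤ H
      · rw [𝒢.l_zero hGH x hx, C_0, zero_mul, mul_zero]
        exact ann_zero _
      · intro q
        have h2 := 𝒢.D_inc F G H hGH (fun h => by
          rcases eq_or_lt_of_le h with h | h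
          · exact hGH h.symm.le
          · exact hHG h) (C (𝒢.l H x) * q)
        rw [← h2]
        congr 1
        ring
    · rw [if_neg hHF, mul_zero]
      exact ann_zero _

end F5

theorem f5 : S_F5 := by
  intro hF2 hDN Φ V _ _ _ _ 𝒢 κ hκ k c hc F hkF hT
  have key : ∀ H, H < F → Ann (𝒢.D F) (X H * c F) := by
    intro H hH
    by_cases hkH : k ≤ 𝒢.dim H
    · have h1 : Ann (𝒢.D H) (c H) := by
        obtain ⟨T, hHT, hTF, hdim⟩ := 𝒢.facet hH
        have h2 := hT T hTF hdim
        rcases eq_or_lt_of_le hHT with rfl | hlt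
        · exact h2
        · have h3 := hc.up T H hlt hkH
          refine hDN Φ V 𝒢 κ hκ T H (c H) hlt (hc.mem H hkH) ?_
          have h4 := (h2.mul_left (X H)).sub h3
          have h5 : X H * c T - X H * (c T - c H) = X H * c H := by ring
          rw [h5] at h4
          exact h4
      have h2 := hF2 F5.f0 Φ V 𝒢 F H (c H) hH (hc.mem H hkH) h1
      have h3 := (hc.up F H hH hkH).add h2
      have h4 : X H * (c F - c H) + X H * c H = X H * c F := by ring
      rw [h4] at h3
      exact h3
    · exact hc.out F H hH hkF.le (not_le.1 hkH)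
  refine ann_of_homog (𝒢.D_homog F) (hc.hom F hkF.le) fun m q hq hm => ?_
  have h1 : mulL (c F) (𝒢.D F) q = 0 := by
    refine F5.vanish hq (by omega) fun H r => ?_
    rw [mulL_apply]
    by_cases hH : H < F
    · have h2 := key H hH r
      rw [← h2]
      congr 1
      ring
    · have h2 := 𝒢.D_out F H hH (c F * r)
      rw [← h2]
      congr 1
      ring
  exact h1

end Pool.Agent.KF.G
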