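import Pool.Agent.KF.G.Stmts

/-!
Theorem K for functionals, from the abstract Theorem K (MP_716236_co, part G).
-/

set_option autoImplicit false

namespace Pool.Agent.KF.G

open MvPolynomial Finset

namespace FK

variable {Φ : Type} {L : Fn Φ}

/-- the annihilator of the functional as a submodule -/
noncomputable def AnnS (L : Fn Φ) : Submodule ℝ (MvPolynomial Φ ℝ) where
  carrier := {p | Ann L p}
  add_mem' h h' := Ann.add h h'
  zero_mem' := ann_zero L
  smul_mem' c p h := by
    rw [← C_mul']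
    exact Ann.mul_left h _

/-- polynomials modulo the annihilator -/
abbrev VV (L : Fn Φ) : Type := MvPolynomial Φ ℝ ⧸ AnnS L

/-- the class of a polynomial -/
noncomputable def mk (L : Fn Φ) : MvPolynomial Φ ℝ →ₗ[ℝ] VV L := (AnnS L).mkQ

theorem mk_surj (L : Fn Φ) : Function.Surjective (mk L) := (AnnS L).mkQ_surjective

theorem mk_eq {p q : MvPolynomial Φ ℝ} : mk L p = mk L q ↔ Ann L (p - q) :=
  Submodule.Quotient.eq (AnnS L)

theorem mk_zero {p : MvPolynomial Φ ℝ} : mk L p = 0 ↔ Ann L p :=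
  Submodule.Quotient.mk_eq_zero (AnnS L)

/-- the pairing with a polynomial -/
noncomputable def S1 (L : Fn Φ) : MvPolynomial Φ ℝ →ₗ[ℝ] (VV L →ₗ[ℝ] ℝ) where
  toFun p := (AnnS L).liftQ (L ∘ₗ LinearMap.mulLeft ℝ p) (fun q hq => by
    change L (p * q) = 0
    rw [mul_comm]
    exact hq p)
  map_add' p p' := by
    refine LinearMap.ext fun y => ?_
    obtain ⟨q, rfl⟩ := mk_surj L y
    change L ((p + p') * q) = L (p * q) + L (p' * q)
    rw [add_mul, map_add]
  map_smul' c p := by
    refine LinearMap.ext fun y => ?_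
    obtain ⟨q, rfl⟩ := mk_surj L y
    change L ((c • p) * q) = c • L (p * q)
    rw [smul_mul_assoc, map_smul]

/-- the pairing -/
noncomputable def SS (L : Fn Φ) : VV L →ₗ[ℝ] VV L →ₗ[ℝ] ℝ :=
  (AnnS L).liftQ (S1 L) (fun p hp => by
    refine LinearMap.ext fun y => ?_
    obtain ⟨q, rfl⟩ := mk_surj L y
    exact hp q)

theorem SS_mk (p q : MvPolynomial Φ ℝ) : SS L (mk L p) (mk L q) = L (p * q) := rfl

/-- multiplication by a polynomial -/
noncomputable def mq (L : Fn Φ) (w : MvPolynomial Φ ℝ) : VV L →ₗ[ℝ] VV L :=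
  (AnnS L).mapQ (AnnS L) (LinearMap.mulLeft ℝ w) (fun _ hp => Ann.mul_left hp w)

theorem mq_mk (w p : MvPolynomial Φ ℝ) : mq L w (mk L p) = mk L (w * p) := rfl

theorem mq_pow (w p : MvPolynomial Φ ℝ) (k : ℕ) :
    (mq L w ^ k) (mk L p) = mk L (w ^ k * p) := by
  induction k with
  | zero => rw [pow_zero, pow_zero, one_mul]; rfl
  | succ k ih =>
    rw [pow_succ', Module.End.mul_apply, ih, mq_mk, pow_succ', mul_assoc]

theorem mq_add (N η : MvPolynomial Φ ℝ) (t : ℝ) :
    mq L η + t • mq L N = mq L (η + C t * N) := by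
  refine LinearMap.ext fun y => ?_
  obtain ⟨q, rfl⟩ := mk_surj L y
  rw [LinearMap.add_apply, LinearMap.smul_apply, mq_mk, mq_mk, mq_mk, ← map_smul, ← map_add,
    add_mul, ← C_mul', mul_assoc]

/-- the grading -/
noncomputable def GG (L : Fn Φ) (i : ℕ) : Submodule ℝ (VV L) :=
  (homogeneousSubmodule Φ ℝ i).map (mk L)

theorem mk_mem {i : ℕ} {p : MvPolynomial Φ ℝ} (hp : p.IsHomogeneous i) : mk L p ∈ GG L i :=
  ⟨p, (mem_homogeneousSubmodule i p).2 hp, rfl⟩

theorem mem_GG {i : ℕ} {x : VV L} (hx : x ∈ GG L i) :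
    ∃ p : MvPolynomial Φ ℝ, p.IsHomogeneous i ∧ mk L p = x := by
  obtain ⟨p, hp, rfl⟩ := hx
  exact ⟨p, (mem_homogeneousSubmodule i p).1 hp, rfl⟩

theorem iSup_GG (L : Fn Φ) : iSup (GG L) = ⊤ := by
  rw [eq_top_iff]
  rintro x -
  obtain ⟨p, rfl⟩ := mk_surj L x
  rw [← sum_homogeneousComponent p, map_sum]
  exact Submodule.sum_mem _ fun i _ => Submodule.mem_iSup_of_mem i
    (mk_mem (homogeneousComponent_isHomogeneous i p))

theorem indep {n : ℕ} (hL : Homog L n) : iSupIndep (GG L) := by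
  classical
  rw [iSupIndep_iff_finsetSum_eq_zero_imp_eq_zero]
  intro s v hv h0 j hj
  choose! p hp hp' using fun i (hi : i ∈ s) => mem_GG (hv i hi)
  have h1 : mk L (∑ i ∈ s, p i) = 0 := by
    rw [map_sum, ← h0]
    exact Finset.sum_congr rfl fun i hi => hp' i hi
  have h2 := (mk_zero.1 h1).component hL j
  rw [map_sum] at h2
  have h3 : ∑ i ∈ s, homogeneousComponent j (p i) = p j := by
    have h4 : ∀ i ∈ s, homogeneousComponent j (p i) = if i = j then p j else 0 := by
      intro i hi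
      rw [homogeneousComponent_of_mem ((mem_homogeneousSubmodule _ _).2 (hp i hi))]
      by_cases hij : i = j
      · subst hij
        rw [if_pos rfl]
      · rw [if_neg hij, if_neg (fun h => hij h.symm)]
    rw [Finset.sum_congr rfl h4, Finset.sum_ite_eq', if_pos hj]
  rw [h3] at h2
  rw [← hp' j hj]
  exact mk_zero.2 h2

theorem internal {n : ℕ} (hL : Homog L n) : DirectSum.IsInternal (GG L) :=
  DirectSum.isInternal_submodule_of_iSupIndep_of_iSup_eq_top (indep hL) (iSup_GG L)

theorem finite_VV [Fintype Φ] {n : ℕ} (hL : Homog L n) : FiniteDimensional ℝ (VV L) := by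
  classical
  refine Module.Finite.of_surjective
    ((mk L).comp (restrictTotalDegree Φ ℝ n).subtype) fun x => ?_
  obtain ⟨p, rfl⟩ := mk_surj L x
  refine ⟨⟨∑ i ∈ range (n + 1), homogeneousComponent i p, ?_⟩, ?_⟩
  · refine Submodule.sum_mem _ fun i hi => ?_
    rw [mem_restrictTotalDegree]
    exact (homogeneousComponent_isHomogeneous i p).totalDegree_le.trans
      (Nat.lt_succ_iff.1 (mem_range.1 hi))
  · change mk L (∑ i ∈ range (n + 1), homogeneousComponent i p) = mk L p
    rw [mk_eq]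
    have h1 : (∑ i ∈ range (n + 1), homogeneousComponent i p) - p =
        -∑ i ∈ (range (p.totalDegree + 1)).filter (fun i => n < i), homogeneousComponent i p := by
      have h2 := sum_homogeneousComponent p
      have h3 : ∑ i ∈ range (n + 1), homogeneousComponent i p =
          ∑ i ∈ (range (p.totalDegree + 1)).filter (fun i => ¬ n < i),
            homogeneousComponent i p := by
        symm
        refine Finset.sum_subset (fun i hi => ?_) fun i hi hi' => ?_
        · rw [Finset.mem_filter] at hi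
          rw [mem_range]
          omega
        · rw [Finset.mem_filter, mem_range] at hi'
          rw [mem_range] at hi
          exact homogeneousComponent_eq_zero _ _ (by omega)
      have h4 := Finset.sum_filter_add_sum_filter_not (range (p.totalDegree + 1))
        (fun i => n < i) (fun i => homogeneousComponent i p)
      rw [h3]
      rw [h2] at h4
      linear_combination h4
    rw [h1]
    refine Ann.neg (ann_sum fun i hi => ?_)
    exact ann_of_lt hL (homogeneousComponent_isHomogeneous i p) (Finset.mem_filter.1 hi).2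

end FK

theorem fk (hK : S_K) : S_FK := by
  intro Φ _ L n N η hL hN hη hHR i l a ha hker hli him
  have : FiniteDimensional ℝ (FK.VV L) := FK.finite_VV hL
  obtain ⟨t0, ht0⟩ := hHR
  have key := hK (FK.VV L) (FK.GG L) n (FK.SS L) (FK.mq L N) (FK.mq L η) (FK.internal hL)
    (fun j hj => by
      rw [eq_bot_iff]
      intro x hx
      obtain ⟨p, hp, rfl⟩ := FK.mem_GG hx
      exact FK.mk_zero.2 (ann_of_lt hL hp hj))
    (fun x y => by
      obtain ⟨p, rfl⟩ := FK.mk_surj L x
      obtain ⟨q, rfl⟩ := FK.mk_surj L y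
      rw [FK.SS_mk, FK.SS_mk, mul_comm])
    (fun x h => by
      obtain ⟨p, rfl⟩ := FK.mk_surj L x
      exact FK.mk_zero.2 fun q => h (FK.mk L q))
    (fun j k hjk x hx y hy => by
      obtain ⟨p, hp, rfl⟩ := FK.mem_GG hx
      obtain ⟨q, hq, rfl⟩ := FK.mem_GG hy
      exact hL (j + k) _ (hp.mul hq) hjk)
    (fun x => by
      obtain ⟨p, rfl⟩ := FK.mk_surj L x
      rw [FK.mq_mk, FK.mq_mk, FK.mq_mk, FK.mq_mk, mul_left_comm])
    (fun j x hx => by
      obtain ⟨p, hp, rfl⟩ := FK.mem_GG hx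
      rw [FK.mq_mk, add_comm]
      exact FK.mk_mem (hN.mul hp))
    (fun j x hx => by
      obtain ⟨p, hp, rfl⟩ := FK.mem_GG hx
      rw [FK.mq_mk, add_comm]
      exact FK.mk_mem (hη.mul hp))
    (fun x y => by
      obtain ⟨p, rfl⟩ := FK.mk_surj L x
      obtain ⟨q, rfl⟩ := FK.mk_surj L y
      rw [FK.mq_mk, FK.mq_mk, FK.SS_mk, FK.SS_mk]
      congr 1
      ring)
    (fun x y => by
      obtain ⟨p, rfl⟩ := FK.mk_surj L x
      obtain ⟨q, rfl⟩ := FK.mk_surj L y
      rw [FK.mq_mk, FK.mq_mk, FK.SS_mk, FK.SS_mk]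
      congr 1
      ring)
    ⟨t0, fun t ht j x hx hj h0 hx0 => by
      obtain ⟨p, hp, rfl⟩ := FK.mem_GG hx
      rw [FK.mq_add, FK.mq_pow] at h0
      rw [FK.mq_add, FK.mq_pow, FK.SS_mk]
      exact ht0 t ht j p hp hj (FK.mk_zero.1 h0) fun h => hx0 (FK.mk_zero.2 h)⟩
    i l (FK.mk L a) (FK.mk_mem ha)
    (by rw [FK.mq_pow]; exact FK.mk_zero.2 hker) hli
    (by
      obtain ⟨b, hb⟩ := him
      refine ⟨FK.mk L b, ?_⟩
      rw [FK.mq_pow, FK.mq_pow, FK.mq_pow]
      exact (FK.mk_eq.2 hb).symm)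
  rw [FK.mq_pow, FK.mq_pow, FK.SS_mk] at key
  refine ⟨key.1, fun h => key.2 fun hr => h ?_⟩
  obtain ⟨y, hy⟩ := hr
  obtain ⟨b, rfl⟩ := FK.mk_surj L y
  rw [FK.mq_pow] at hy
  exact ⟨b, FK.mk_eq.1 hy.symm⟩

end Pool.Agent.KF.G
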