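import Pool.Agent.KF.G.Stmts

/-!
Hard Lefschetz for `P_l`, surjectivity.
-/

set_option autoImplicit false

namespace Pool.Agent.KF.G

open MvPolynomial Finset

namespace KP1

/-- A functional that vanishes on the radical of a form is represented by the form. -/
theorem exists_rep {E : Type} [AddCommGroup E] [Module ℝ E] [FiniteDimensional ℝ E]
    (f : E →ₗ[ℝ] E →ₗ[ℝ] ℝ) (g : E →ₗ[ℝ] ℝ)
    (h : ∀ y, (∀ x, f x y = 0) → g y = 0) : ∃ x, ∀ y, f x y = g y := by
  have h1 : g ∈ (LinearMap.ker f.flip).dualAnnihilator := by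
    rw [Submodule.mem_dualAnnihilator]
    intro y hy
    rw [LinearMap.mem_ker] at hy
    refine h y fun x => ?_
    have := LinearMap.congr_fun hy x
    exact this
  rw [← LinearMap.range_dualMap_eq_dualAnnihilator_ker] at h1
  obtain ⟨z, hz⟩ := h1
  obtain ⟨x, hx⟩ := (Module.evalEquiv ℝ E).surjective z
  refine ⟨x, fun y => ?_⟩
  rw [← hz, ← hx]
  rfl

end KP1

open KP1 in
theorem kp1 : S_KP1 := by
  intro hFK hDU Φ _ L n N η hL hN hη hHR j l s x hx hj hs hNx hxl
  -- the space of test classes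
  let E : Submodule ℝ (MvPolynomial Φ ℝ) :=
    { carrier := {β | β.IsHomogeneous (n - j) ∧ Ann L (N ^ (l + 1) * β)}
      add_mem' := fun {a b} ha hb => ⟨ha.1.add hb.1, by
        rw [mul_add]
        exact ha.2.add hb.2⟩
      zero_mem' := ⟨isHomogeneous_zero _ _ _, by
        rw [mul_zero]
        exact ann_zero L⟩
      smul_mem' := fun c a ha => ⟨(homogeneousSubmodule Φ ℝ (n - j)).smul_mem c ha.1, by
        rw [smul_eq_C_mul, mul_left_comm]
        exact ha.2.mul_left _⟩ }
  haveI : Module.Finite ℝ (homogeneousSubmodule Φ ℝ (n - j)) :=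
    Module.Finite.iff_fg.2 (homogeneousSubmodule_fg (σ := Φ) (R := ℝ) (n - j))
  haveI : FiniteDimensional ℝ E :=
    Submodule.finiteDimensional_of_le (S₂ := homogeneousSubmodule Φ ℝ (n - j))
      fun β hβ => hβ.1
  let f : E →ₗ[ℝ] E →ₗ[ℝ] ℝ :=
    LinearMap.mk₂ ℝ (fun a b => L ((a : MvPolynomial Φ ℝ) * (η ^ s * (N ^ l * b))))
      (fun a a' b => by
        simp only [Submodule.coe_add]
        rw [← map_add]
        congr 1
        ring)
      (fun c a b => by
        simp only [Submodule.coe_smul]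
        rw [← map_smul]
        congr 1
        simp only [MvPolynomial.smul_eq_C_mul]
        ring)
      (fun a b b' => by
        simp only [Submodule.coe_add]
        rw [← map_add]
        congr 1
        ring)
      (fun c a b => by
        simp only [Submodule.coe_smul]
        rw [← map_smul]
        congr 1
        simp only [MvPolynomial.smul_eq_C_mul]
        ring)
  have hf : ∀ a b : E, f a b = L ((a : MvPolynomial Φ ℝ) * (η ^ s * (N ^ l * b))) :=
    fun a b => rfl
  let g : E →ₗ[ℝ] ℝ := (L ∘ₗ LinearMap.mulRight ℝ x) ∘ₗ E.subtype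
  have hg : ∀ a : E, g a = L (a * x) := fun a => rfl
  have hNl : (N ^ l).IsHomogeneous l := by simpa using hN.pow l
  have hηs : (η ^ s).IsHomogeneous s := by simpa using hη.pow s
  have hdeg : ∀ a : MvPolynomial Φ ℝ, a.IsHomogeneous (n - j) →
      (η ^ s * (N ^ l * a)).IsHomogeneous j := by
    intro a ha
    have h1 := hηs.mul (hNl.mul ha)
    have h2 : s + (l + (n - j)) = j := by omega
    rwa [h2] at h1
  have hrad : ∀ b : E, (∀ a, f a b = 0) → g b = 0 := by
    intro b hb
    have h1 : InIm L N (l + 1) (η ^ s * (N ^ l * (b : MvPolynomial Φ ℝ))) :=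
      hDU Φ L n j (l + 1) N _ hL hN (hdeg _ b.2.1) hj fun a ha ha' => hb ⟨a, ha, ha'⟩
    have h2 : InIm L N (l + 1) (N ^ l * (b : MvPolynomial Φ ℝ)) := by
      by_contra hc
      have h3 := (hFK Φ L n N η hL hN hη hHR (n - j) l b b.2.1 b.2.2 (by omega) (by
        have e : n - 2 * (n - j) - l + 1 = s + 1 := by omega
        rw [e, pow_succ', mul_assoc]
        exact h1.mul_left η)).2 hc
      have e : n - 2 * (n - j) - l = s := by omega
      rw [e] at h3
      have h4 := hb b
      rw [hf] at h4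
      rw [h4, mul_zero] at h3
      exact lt_irrefl _ h3
    obtain ⟨γ, hγ⟩ := h2
    obtain ⟨y, hy⟩ := hxl
    rw [hg]
    have e1 := hy b
    have e2 := hγ y
    have e3 := hy (N * γ)
    have e4 := hNx γ
    rw [sub_mul, map_sub, sub_eq_zero] at e1 e2 e3
    have c1 : (b : MvPolynomial Φ ℝ) * x = x * b := mul_comm _ _
    have c2 : N ^ l * y * (b : MvPolynomial Φ ℝ) = N ^ l * b * y := by ring
    have c3 : N ^ (l + 1) * γ * y = N ^ l * y * (N * γ) := by ring
    have c4 : x * (N * γ) = N * x * γ := by ring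
    rw [c1, e1, c2, e2, c3, ← e3, c4, e4]
  obtain ⟨β, hβ⟩ := exists_rep f g hrad
  refine ⟨β, β.2.1, β.2.2, ?_⟩
  refine hDU Φ L n j (l + 1) N _ hL hN (hx.sub (hdeg _ β.2.1)) hj fun a ha ha' => ?_
  have h1 := hβ ⟨a, ha, ha'⟩
  rw [hf, hg] at h1
  have c : a * (η ^ s * (N ^ l * (β : MvPolynomial Φ ℝ))) =
      (β : MvPolynomial Φ ℝ) * (η ^ s * (N ^ l * a)) := by ring
  rw [mul_sub, map_sub, c, h1, sub_self]

end Pool.Agent.KF.G
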