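import Pool.Agent.KF.G.Stmts

/-!
Module KP2: hard Lefschetz for `P_l` at the centre, injectivity.
-/

set_option autoImplicit false

namespace Pool.Agent.KF.G

open MvPolynomial Finset

/-- Hard Lefschetz for `P_l` at the centre. -/
theorem kp2 : S_KP2 := by
  intro hFK Φ _ L n N η hL hN hη hHR j l x hx hj hNx hx1 hx2
  rcases hx1.homog hL hN hx with ⟨hlj, b, hb, hxb⟩ | ⟨-, hx0⟩
  · obtain ⟨i, rfl⟩ : ∃ i, j = l + i := ⟨j - l, by omega⟩
    have hi : l + i - l = i := by omega
    rw [hi] at hb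
    have hn : n = 2 * i + l + 1 := by omega
    have e1 : n - 2 * i - l = 1 := by omega
    have hNb : Ann L (N ^ (l + 1) * b) := by
      have h1 := hNx.sub (hxb.mul_left N)
      have e2 : N * x - N * (x - N ^ l * b) = N ^ (l + 1) * b := by ring
      rwa [e2] at h1
    have hη2 : InIm L N (l + 1) (η ^ (n - 2 * i - l + 1) * (N ^ l * b)) := by
      rw [e1]
      refine (hx2.mul_left η).congr ?_
      have h2 := (hxb.mul_left (η ^ 2)).neg
      have e3 : -(η ^ 2 * (x - N ^ l * b)) = η ^ (1 + 1) * (N ^ l * b) - η * (η * x) := by ring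
      rwa [e3] at h2
    obtain ⟨-, h3⟩ := hFK Φ L n N η hL hN hη hHR i l b hb hNb (by omega) hη2
    by_contra hcon
    have h4 : ¬ InIm L N (l + 1) (N ^ l * b) := fun h => hcon (h.congr hxb)
    have h5 := h3 h4
    rw [e1, pow_one] at h5
    have h6 : L (b * (η * x)) = 0 := hx2.orth hNb
    have h7 := hxb (b * η)
    have e4 : (x - N ^ l * b) * (b * η) = b * (η * x) - b * (η * (N ^ l * b)) := by ring
    rw [e4, map_sub, h6, zero_sub, neg_eq_zero] at h7
    rw [h7, mul_zero] at h5
    exact lt_irrefl _ h5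
  · exact inIm_of_ann _ hx0

end Pool.Agent.KF.G
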