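import Pool.Agent.KF.G.Stmts

/-!
Images on the stars (`S_NR`).
-/

set_option autoImplicit false

namespace Pool.Agent.KF.G

open MvPolynomial Finset

theorem nr : S_NR := by
  intro hF2 hF1 hF0 Φ V _ _ _ _ 𝒢 k c hc F G hGF hkF hT l hl
  rcases lt_or_ge (𝒢.dim G) k with hG | hG
  · exact inIm_of_ann l (ann_mulL.2 (hc.out F G hGF hkF hG))
  · have hup := hc.up F G hGF hG
    by_cases hA : Ann (𝒢.D G) (c G)
    · have h1 := hF2 hF0 Φ V 𝒢 F G (c G) hGF (hc.mem G hG) hA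
      have h2 := hup.add h1
      rw [← mul_add, sub_add_cancel] at h2
      exact inIm_of_ann l (ann_mulL.2 h2)
    · obtain ⟨hd, ⟨b, hb⟩, -⟩ := hT hG hA
      have hz := (𝒢.ann_sub_proj G b).mul_left (𝒢.w G ^ (2 * k - 𝒢.dim G))
      have h1 : Ann (𝒢.D G) (c G - 𝒢.w G ^ (2 * k - 𝒢.dim G) * proj G b) := by
        have h2 := hb.add hz
        have e : c G - 𝒢.w G ^ (2 * k - 𝒢.dim G) * b +
            𝒢.w G ^ (2 * k - 𝒢.dim G) * (b - proj G b) =
            c G - 𝒢.w G ^ (2 * k - 𝒢.dim G) * proj G b := by ring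
        rw [e] at h2
        exact h2
      have hm : c G - 𝒢.w G ^ (2 * k - 𝒢.dim G) * proj G b ∈ low G :=
        (low G).sub_mem (hc.mem G hG)
          ((low G).mul_mem ((low G).pow_mem (th_mem_low _ _ _) _) (proj_mem G b))
      have h3 := hF2 hF0 Φ V 𝒢 F G _ hGF hm h1
      have h4 := (ann_pow_sub (hF1 hF0 Φ V 𝒢 F G hGF) (2 * k - 𝒢.dim G)).mul_right (proj G b)
      have h5 : Ann (𝒢.D F) (X G * (c F - 𝒢.w F ^ (2 * k - 𝒢.dim G) * proj G b)) := by
        have h6 := (hup.add h3).sub h4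
        have e : X G * (c F - c G) + X G * (c G - 𝒢.w G ^ (2 * k - 𝒢.dim G) * proj G b) -
            X G * (𝒢.w F ^ (2 * k - 𝒢.dim G) - 𝒢.w G ^ (2 * k - 𝒢.dim G)) * proj G b =
            X G * (c F - 𝒢.w F ^ (2 * k - 𝒢.dim G) * proj G b) := by ring
        rw [e] at h6
        exact h6
      have h7 : InIm (mulL (X G) (𝒢.D F)) (𝒢.w F) (2 * k - 𝒢.dim G) (c F) :=
        ⟨proj G b, ann_mulL.2 h5⟩
      exact h7.mono (by omega)

end Pool.Agent.KF.G
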