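import Pool.Agent.KF.G.Stmts

/-!
T*: the induction (module KFG_TS).
-/

set_option autoImplicit false

namespace Pool.Agent.KF.G

open MvPolynomial Finset

theorem ts : S_TS := by
  intro Φ V _ _ _ _ 𝒢 k c hc hB hA hC
  have key : ∀ n : ℕ, ∀ F, 𝒢.dim F = n → k ≤ 𝒢.dim F → TStar 𝒢 k c F := by
    intro n
    induction n using Nat.strong_induction_on with
    | _ n ih =>
      intro F hFn hkF hna
      have hlow : ∀ G, G < F → k ≤ 𝒢.dim G → TStar 𝒢 k c G := fun G hG hk =>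
        ih (𝒢.dim G) (hFn ▸ 𝒢.dim_lt hG) G rfl hk
      have hex : ∃ m, ¬ InIm (𝒢.D F) (𝒢.w F) m (c F) := by
        refine ⟨k + 1, fun h => ?_⟩
        rcases h.homog (𝒢.D_homog F) (th_homog _ _ _) (hc.hom F hkF) with h' | h'
        · exact absurd h'.1 (by omega)
        · exact hna h'.2
      classical
      obtain ⟨m, hm, hmin⟩ : ∃ m, ¬ InIm (𝒢.D F) (𝒢.w F) m (c F) ∧
          ∀ l < m, InIm (𝒢.D F) (𝒢.w F) l (c F) :=
        ⟨Nat.find hex, Nat.find_spec hex, fun l hl => not_not.1 (Nat.find_min hex hl)⟩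
      obtain ⟨l, rfl⟩ : ∃ l, m = l + 1 := by
        rcases m with _ | l
        · exact absurd (inIm_zero _ _ _) hm
        · exact ⟨l, rfl⟩
      have hl := hmin l (by omega)
      have h1 : ¬ l + 𝒢.dim F < 2 * k := fun h => hm (hA F hkF hlow l h hl)
      have h2 : l + 𝒢.dim F ≠ 2 * k + 1 := fun h => hm (hB F hkF hlow l h hl)
      have h3 : ¬ 2 * k + 2 ≤ l + 𝒢.dim F := fun h => hna (hC F hkF hlow l h hl)
      have e1 : 2 * k - 𝒢.dim F = l := by omega
      have e2 : 2 * k + 1 - 𝒢.dim F = l + 1 := by omega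
      refine ⟨by omega, ?_, ?_⟩
      · rw [e1]; exact hl
      · rw [e2]; exact hm
  intro F hkF
  exact key _ F rfl hkF

end Pool.Agent.KF.G
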