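import Pool.Agent.KF.G.Stmts

/-!
Part G of the proof of BAL (MP_716236_co): the module WC.
-/

set_option autoImplicit false

namespace Pool.Agent.KF.G

open MvPolynomial Finset

namespace WC

variable {Φ : Type} {L : Fn Φ}

/-- a homogeneous polynomial of positive degree is a combination of multiples of variables -/
lemma of_vars {p q : MvPolynomial Φ ℝ} {m : ℕ} (hq : q.IsHomogeneous m) (hm : 0 < m)
    (h : ∀ (G : Φ) (r : MvPolynomial Φ ℝ), L (p * (X G * r)) = 0) : L (p * q) = 0 := by
  classical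
  conv_lhs => rw [q.as_sum]
  rw [Finset.mul_sum, map_sum]
  refine Finset.sum_eq_zero fun s hs => ?_
  have h1 : s ≠ 0 := by
    rintro rfl
    have h2 := hq (mem_support_iff.1 hs)
    simp at h2
    omega
  obtain ⟨G, hG⟩ : ∃ G, s G ≠ 0 := by
    by_contra hcon
    push Not at hcon
    exact h1 (Finsupp.ext hcon)
  have h3 : monomial s (coeff s q) = X G * monomial (s - Finsupp.single G 1) (coeff s q) := by
    rw [X, monomial_mul, one_mul]
    congr 1
    rw [add_tsub_cancel_of_le]
    rw [Finsupp.single_le_iff]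
    omega
  rw [h3]
  exact h G _

variable [Fintype Φ] [PartialOrder Φ] {V : Type} [AddCommGroup V] [Module ℝ V]

open scoped Classical in
lemma top_case (𝒢 : Geo Φ V) {κ : Φ → Φ → ℝ} (hκ : Kap 𝒢 κ) {k : ℕ}
    {c : Φ → MvPolynomial Φ ℝ} (hc : Cls 𝒢 k c) {F : Φ} (hF : 𝒢.dim F = k + 1)
    (hbal : ∑ G ∈ univ.filter (fun G => G < F ∧ 𝒢.dim G = k),
      κ G F * 𝒢.D G (c G) * 𝒢.l G (𝒢.pt F) = 0) : 𝒢.D F (𝒢.w F * c F) = 0 := by
  unfold Geo.w th
  rw [Finset.sum_mul, map_sum]
  have h1 : ∀ G ∈ univ.filter (fun G => G < F),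
      𝒢.D F (C (𝒢.l G (𝒢.pt F)) * X G * c F) =
        if 𝒢.dim G = k then κ G F * 𝒢.D G (c G) * 𝒢.l G (𝒢.pt F) else 0 := by
    intro G hG
    have hGF : G < F := (Finset.mem_filter.1 hG).2
    have hdim := 𝒢.dim_lt hGF
    have h2 : C (𝒢.l G (𝒢.pt F)) * X G * c F = (𝒢.l G (𝒢.pt F)) • (X G * c F) := by
      rw [mul_assoc, ← smul_eq_C_mul]
    rw [h2, map_smul, smul_eq_mul]
    split_ifs with hk
    · have h3 := hc.up F G hGF (by omega)
      rw [mul_sub] at h3
      have h4 := h3.apply
      rw [map_sub, sub_eq_zero] at h4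
      rw [h4, (hκ G F hGF (by omega)).2 _ (hc.mem G (by omega))]
      ring
    · rw [(hc.out F G hGF (by omega) (by omega)).apply, mul_zero]
  rw [Finset.sum_congr rfl h1, ← Finset.sum_filter, Finset.filter_filter]
  exact hbal

end WC

open WC in
theorem wc : S_WC := by
  classical
  intro hF2 hF1 hF0 Φ V _ _ _ _ 𝒢 κ hκ k c hc hbal
  have hF2' := hF2 hF0
  have hF1' := hF1 hF0
  have main : ∀ n : ℕ, ∀ F, 𝒢.dim F = n → k ≤ 𝒢.dim F → Ann (𝒢.D F) (𝒢.w F * c F) := by
    intro n
    induction n using Nat.strong_induction_on with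
    | _ n ih =>
      intro F hn hkF
      have hhom : (𝒢.w F * c F).IsHomogeneous (1 + k) :=
        (th_homog 𝒢.l F (𝒢.pt F)).mul (hc.hom F hkF)
      rcases Nat.eq_or_lt_of_le hkF with hk | hk
      · exact ann_of_lt (𝒢.D_homog F) hhom (by omega)
      · refine ann_of_homog (𝒢.D_homog F) hhom fun m q hq hm => ?_
        rcases Nat.eq_zero_or_pos m with rfl | hpos
        · have h1 : q = C (coeff 0 q) := by
            have h2 := hq.totalDegree_le
            exact totalDegree_eq_zero_iff_eq_C.1 (by omega)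
          have h3 : 𝒢.w F * c F * q = (coeff 0 q) • (𝒢.w F * c F) := by
            rw [h1, mul_comm, ← smul_eq_C_mul, coeff_C, if_pos rfl]
          rw [h3, map_smul, top_case 𝒢 hκ hc (by omega), smul_zero]
          have h4 := hbal F (by omega)
          exact h4
        · refine of_vars hq hpos fun G r => ?_
          have h0 : 𝒢.w F * c F * (X G * r) = X G * (𝒢.w F * c F * r) := by ring
          rw [h0]
          by_cases hGF : G < F
          · have hdim := 𝒢.dim_lt hGF
            rcases lt_or_ge (𝒢.dim G) k with hGk | hGk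
            · have h1 := (hc.out F G hGF hkF hGk).mul_right (𝒢.w F * r)
              have h2 : X G * c F * (𝒢.w F * r) = X G * (𝒢.w F * c F * r) := by ring
              rw [h2] at h1
              exact h1.apply
            · have h1 : Ann (𝒢.D G) (𝒢.w G * c G) := ih (𝒢.dim G) (by omega) G rfl hGk
              have h2 : 𝒢.w G * c G ∈ low G :=
                (low G).mul_mem (th_mem_low 𝒢.l G (𝒢.pt G)) (hc.mem G hGk)
              have h3 : Ann (𝒢.D F) (X G * (𝒢.w G * c G)) := hF2' Φ V 𝒢 F G _ hGF h2 h1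
              have h4 := (hF1' Φ V 𝒢 F G hGF).mul_right (c F)
              have h5 := (hc.up F G hGF hGk).mul_left (𝒢.w G)
              have h6 := (h3.add (h4.add h5)).mul_right r
              have h7 : (X G * (𝒢.w G * c G) + (X G * (𝒢.w F - 𝒢.w G) * c F +
                  𝒢.w G * (X G * (c F - c G)))) * r = X G * (𝒢.w F * c F * r) := by ring
              rw [h7] at h6
              exact h6.apply
          · exact 𝒢.D_out F G hGF _
  intro F hkF
  exact main _ F rfl hkF

end Pool.Agent.KF.G
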