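import Pool.Agent.KF.G.Asm
import Pool.Agent.KF.G.FK
import Pool.Agent.KF.G.DU
import Pool.Agent.KF.G.KP1
import Pool.Agent.KF.G.KP2
import Pool.Agent.KF.G.F0
import Pool.Agent.KF.G.F2
import Pool.Agent.KF.G.CH
import Pool.Agent.KF.G.DN
import Pool.Agent.KF.G.CC
import Pool.Agent.KF.G.WC
import Pool.Agent.KF.G.F5
import Pool.Agent.KF.G.NR
import Pool.Agent.KF.G.B
import Pool.Agent.KF.G.A
import Pool.Agent.KF.G.C
import Pool.Agent.KF.G.TS
import Pool.Agent.KF.G.WU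
import Pool.Agent.KF.K.KInd

/-!
Part G: BAL and the inequality `f_k ≤ (k + 2) f_(k+1)` from Theorem K.
-/

set_option autoImplicit false

namespace Pool.Agent.KF.G

open MvPolynomial Finset

/-- Theorem K in the unbundled form -/
theorem s_K (h : ∀ (l : ℕ) (V : Type) [AddCommGroup V] [Module ℝ V] (m : ℕ)
    (G : ℕ → Submodule ℝ V) (S : V →ₗ[ℝ] V →ₗ[ℝ] ℝ) (N eta : V →ₗ[ℝ] V),
    K.KHyp V m G S N eta → K.KConc V m G S N eta l) : S_K := by
  intro V _ _ _ G m S N η hint _ hsymm hnd hpair hcomm hN hη hNa hηa hhr i l x hx hx0 hl hrange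
  have hyp : K.KHyp V m G S N η :=
    { fin := inferInstance
      span := hint.submodule_iSup_eq_top
      symm := hsymm
      nondeg := hnd
      pair := fun i j x y hx hy hij => hpair i j hij x hx y hy
      degN := hN
      degE := hη
      comm := hcomm
      adjN := hNa
      adjE := hηa
      hr := by
        obtain ⟨t0, ht⟩ := hhr
        exact ⟨t0, fun t h i x hx => ht t h i x hx⟩ }
  obtain ⟨z, hz⟩ := hrange
  obtain ⟨h1, h2⟩ := h l V m G S N η hyp i x hx hx0 hl ⟨z, hz.symm⟩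
  refine ⟨h1, fun hno => h2 ?_⟩
  rintro ⟨z', hz'⟩
  exact hno ⟨z', hz'.symm⟩

theorem g_bal (hK : S_K) : S_BAL :=
  bal (fk hK) du kp1 kp2 f0 f1 f2 ch dn cc wc f5 nr claimB claimA claimC ts

open scoped Classical in
/-- the inequality for face data -/
theorem g_count (hK : S_K) (Φ V : Type) [Fintype Φ] [PartialOrder Φ] [AddCommGroup V]
    [Module ℝ V] (𝒢 : Geo Φ V) (k : ℕ) (Q : Φ) (hQ : ∀ F, F ≤ Q) (hk : 2 * k < 𝒢.dim Q) :
    (univ.filter (fun F => 𝒢.dim F = k)).card ≤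
      (k + 2) * (univ.filter (fun F => 𝒢.dim F = k + 1)).card := by
  obtain ⟨κ, hκ⟩ := f3 f0 ch Φ V 𝒢
  exact wu (g_bal hK) Φ V 𝒢 κ hκ k Q hQ hk

end Pool.Agent.KF.G
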