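import Pool.Agent.KF.G.Basic

/-!
Part G of the proof of BAL (MP_716236_co): module statements, with proofs on paper.
`w` below is `𝒢.w F = th 𝒢.l F (𝒢.pt F)`, `D F`-annihilator means `Ann (𝒢.D F)`.
All basic calculus (`Ann.add`, `Ann.mul_left`, `ann_mulL`, `ann_pow_sub`, `ann_of_homog`,
`Ann.component`, `InIm.*`, `proj`, `Geo.ann_sub_proj`, `th_mem_low`, ...) is in `Basic.lean`.
-/

set_option autoImplicit false

namespace Pool.Agent.KF.G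

open MvPolynomial Finset

/-- the ample form of the face `F` -/
noncomputable def Geo.w {Φ V : Type} [Fintype Φ] [PartialOrder Φ] [AddCommGroup V] [Module ℝ V]
    (𝒢 : Geo Φ V) (F : Φ) : MvPolynomial Φ ℝ := th 𝒢.l F (𝒢.pt F)

/-- the facet constants: `D F (X_G p) = κ G F * D G p` for a facet `G` of `F`, `p` below `G` -/
def Kap {Φ V : Type} [Fintype Φ] [PartialOrder Φ] [AddCommGroup V] [Module ℝ V]
    (𝒢 : Geo Φ V) (κ : Φ → Φ → ℝ) : Prop :=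
  ∀ G F, G < F → 𝒢.dim G + 1 = 𝒢.dim F →
    0 < κ G F ∧ ∀ p ∈ low G, 𝒢.D F (X G * p) = κ G F * 𝒢.D G p

/-- a compatible family of classes of degree `k` -/
structure Cls {Φ V : Type} [Fintype Φ] [PartialOrder Φ] [AddCommGroup V] [Module ℝ V]
    (𝒢 : Geo Φ V) (k : ℕ) (c : Φ → MvPolynomial Φ ℝ) : Prop where
  mem : ∀ F, k ≤ 𝒢.dim F → c F ∈ low F
  hom : ∀ F, k ≤ 𝒢.dim F → (c F).IsHomogeneous k
  up : ∀ F G, G < F → k ≤ 𝒢.dim G → Ann (𝒢.D F) (X G * (c F - c G))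
  out : ∀ F G, G < F → k ≤ 𝒢.dim F → 𝒢.dim G < k → Ann (𝒢.D F) (X G * c F)

/-- the conclusion of T* for the face `F` -/
def TStar {Φ V : Type} [Fintype Φ] [PartialOrder Φ] [AddCommGroup V] [Module ℝ V]
    (𝒢 : Geo Φ V) (k : ℕ) (c : Φ → MvPolynomial Φ ℝ) (F : Φ) : Prop :=
  ¬ Ann (𝒢.D F) (c F) → 𝒢.dim F ≤ 2 * k ∧ InIm (𝒢.D F) (𝒢.w F) (2 * k - 𝒢.dim F) (c F) ∧
    ¬ InIm (𝒢.D F) (𝒢.w F) (2 * k + 1 - 𝒢.dim F) (c F)

/-- Theorem K (part K), in the form fixed by helper13. -/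
def S_K : Prop := ∀ (V : Type) [AddCommGroup V] [Module ℝ V] [FiniteDimensional ℝ V]
  (G : ℕ → Submodule ℝ V) (m : ℕ) (S : V →ₗ[ℝ] V →ₗ[ℝ] ℝ) (N η : V →ₗ[ℝ] V),
  DirectSum.IsInternal G → (∀ i, m < i → G i = ⊥) → (∀ x y, S x y = S y x) →
  (∀ x, (∀ y, S x y = 0) → x = 0) → (∀ i j, i + j ≠ m → ∀ x ∈ G i, ∀ y ∈ G j, S x y = 0) →
  (∀ x, N (η x) = η (N x)) → (∀ i, ∀ x ∈ G i, N x ∈ G (i + 1)) →
  (∀ i, ∀ x ∈ G i, η x ∈ G (i + 1)) →
  (∀ x y, S (N x) y = S x (N y)) → (∀ x y, S (η x) y = S x (η y)) →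
  (∃ t0 : ℝ, ∀ t ≥ t0, ∀ i, ∀ x ∈ G i, 2 * i ≤ m → ((η + t • N) ^ (m - 2 * i + 1)) x = 0 →
    x ≠ 0 → 0 < (-1 : ℝ) ^ i * S x (((η + t • N) ^ (m - 2 * i)) x)) →
  ∀ i l x, x ∈ G i → (N ^ (l + 1)) x = 0 → l + 2 * i ≤ m →
    (η ^ (m - 2 * i - l + 1)) ((N ^ l) x) ∈ LinearMap.range (N ^ (l + 1)) →
    0 ≤ (-1 : ℝ) ^ i * S x ((η ^ (m - 2 * i - l)) ((N ^ l) x)) ∧
    ((N ^ l) x ∉ LinearMap.range (N ^ (l + 1)) →
      0 < (-1 : ℝ) ^ i * S x ((η ^ (m - 2 * i - l)) ((N ^ l) x)))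

/-- Theorem K for functionals. Proof from `S_K`: `V` = polynomials modulo the submodule
`{p | Ann L p}`, `G i` = image of `homogeneousSubmodule Φ ℝ i`, `S [p] [q] = L (p * q)`, `N`, `η` the
multiplications. `V` is finite dimensional and `G` internal: the annihilator is homogeneous
(`Ann.component`) and contains all degrees `> n` (`ann_of_lt`); homogeneous submodules in
finitely many variables are finite dimensional. `S` pairs `G i` with `G (n - i)` only as `L` is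
homogeneous. `Ann L` of `x - N^(l+1) * b` is equality in `V`, so `InIm` is membership in the
range. -/
def S_FK : Prop := ∀ (Φ : Type) [Fintype Φ] (L : Fn Φ) (n : ℕ) (N η : MvPolynomial Φ ℝ),
  Homog L n → N.IsHomogeneous 1 → η.IsHomogeneous 1 →
  (∃ t0 : ℝ, ∀ t ≥ t0, HR L n (η + C t * N)) →
  ∀ (i l : ℕ) (a : MvPolynomial Φ ℝ), a.IsHomogeneous i → Ann L (N ^ (l + 1) * a) →
    l + 2 * i ≤ n → InIm L N (l + 1) (η ^ (n - 2 * i - l + 1) * (N ^ l * a)) →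
    0 ≤ (-1 : ℝ) ^ i * L (a * (η ^ (n - 2 * i - l) * (N ^ l * a))) ∧
    (¬ InIm L N (l + 1) (N ^ l * a) →
      0 < (-1 : ℝ) ^ i * L (a * (η ^ (n - 2 * i - l) * (N ^ l * a))))

/-- DUALITY: orthogonal to the kernel of `N^l` implies in the image of `N^l`.
Proof: if `l > j` all `a` of degree `n - j` satisfy `Ann L (N^l * a)` (degree `> n`), so `Ann L x`
by `ann_of_homog`. If `l ≤ j`: let `A`, `B` be the (finite dimensional) spaces of
homogeneous polynomials of degree `n - j`, `j - l`; `α : A → Dual B`, `α a b = L (N^l * a * b)`;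
`ker α = {a | Ann L (N^l * a)}` (`ann_of_homog`). The functional `a ↦ L (a * x)` on `A` vanishes on
`ker α`, so it is `a ↦ α a b` for some `b ∈ B` (`B` is reflexive); then `Ann L (x - N^l * b)` by
`ann_of_homog`. -/
def S_DU : Prop := ∀ (Φ : Type) [Fintype Φ] (L : Fn Φ) (n j l : ℕ) (N x : MvPolynomial Φ ℝ),
  Homog L n → N.IsHomogeneous 1 → x.IsHomogeneous j → j ≤ n →
  (∀ a : MvPolynomial Φ ℝ, a.IsHomogeneous (n - j) → Ann L (N ^ l * a) → L (a * x) = 0) →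
  InIm L N l x

/-- HARD LEFSCHETZ for `P_l`, surjectivity. Proof: let `B` be the space of `β` homogeneous of
degree `i = n - j` with `Ann L (N^(l+1) * β)`, with the symmetric form
`⟨β, β'⟩ = L (β * (η^s * (N^l * β')))`. If `β'` is in the radical then (S_DU for `l + 1` and
`η^s N^l β'`, of degree `j`) `η^s N^l β' ∈ Im N^(l+1)`, so S_FK applies to `a = β'`
(`n - 2i - l = s`) and `⟨β', β'⟩ = 0` gives `N^l β' ∈ Im N^(l+1)`, `N^l β' = N^(l+1) γ` modulo `Ann`;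
as `x = N^l y` and `N x = 0` modulo `Ann`: `L (β' x) = L (γ N x) = 0`. So the functional
`β' ↦ L (β' x)` on `B` vanishes on the radical, hence is `⟨β, ·⟩` for some `β ∈ B` (finite
dimension). Then `x - η^s N^l β` is orthogonal to `B`: S_DU for `l + 1`. -/
def S_KP1 : Prop := S_FK → S_DU →
  ∀ (Φ : Type) [Fintype Φ] (L : Fn Φ) (n : ℕ) (N η : MvPolynomial Φ ℝ),
  Homog L n → N.IsHomogeneous 1 → η.IsHomogeneous 1 →
  (∃ t0 : ℝ, ∀ t ≥ t0, HR L n (η + C t * N)) →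
  ∀ (j l s : ℕ) (x : MvPolynomial Φ ℝ), x.IsHomogeneous j → j ≤ n → 2 * j = n + l + s →
    Ann L (N * x) → InIm L N l x →
    ∃ β : MvPolynomial Φ ℝ, β.IsHomogeneous (n - j) ∧ Ann L (N ^ (l + 1) * β) ∧
      InIm L N (l + 1) (x - η ^ s * (N ^ l * β))

/-- HARD LEFSCHETZ for `P_l` at the centre, injectivity. Proof: by `InIm.homog` either `Ann L x`
(done) or `x = N^l b` modulo `Ann` with `b` homogeneous of degree `i = j - l`; `n - 2i - l = 1`.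
S_FK for `a = b`: `η^2 N^l b = η (η x)` is in `Im N^(l+1)`. If `N^l b` is not in `Im N^(l+1)` then
`0 < (-1)^i L (b * (η * (N^l * b))) = (-1)^i L (b * (η * x))`, but this is `0` by `InIm.orth`. -/
def S_KP2 : Prop := S_FK →
  ∀ (Φ : Type) [Fintype Φ] (L : Fn Φ) (n : ℕ) (N η : MvPolynomial Φ ℝ),
  Homog L n → N.IsHomogeneous 1 → η.IsHomogeneous 1 →
  (∃ t0 : ℝ, ∀ t ≥ t0, HR L n (η + C t * N)) →
  ∀ (j l : ℕ) (x : MvPolynomial Φ ℝ), x.IsHomogeneous j → 2 * j + 1 = n + l →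
    Ann L (N * x) → InIm L N l x → InIm L N (l + 1) (η * x) → InIm L N (l + 1) x

section geo

/-- RESTRICTION of the linear forms. Proof: `th F x = ∑_{H < F} l_H(x) X_H`. Terms with `G ≤ H`
vanish (`l_zero`, `x ∈ W G`), terms with `H` incomparable to `G` die with `X_G` (`D_inc`), the
terms `H < G` are those of `th G x`. -/
def S_F0 : Prop := ∀ (Φ V : Type) [Fintype Φ] [PartialOrder Φ] [AddCommGroup V] [Module ℝ V]
  (𝒢 : Geo Φ V) (F G : Φ) (x : V), G < F → x ∈ 𝒢.W G →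
  Ann (𝒢.D F) (X G * (th 𝒢.l F x - th 𝒢.l G x))

/-- Proof: `v = pt G - pt F` is in `W F` and `one v = 0`, so `th F v` is in the annihilator
(`D_lin`), `th F (pt G) = th F (pt F) + th F v`; then `S_F0` for `x = pt G`. -/
def S_F1 : Prop := S_F0 → ∀ (Φ V : Type) [Fintype Φ] [PartialOrder Φ] [AddCommGroup V]
  [Module ℝ V] (𝒢 : Geo Φ V) (F G : Φ), G < F → Ann (𝒢.D F) (X G * (𝒢.w F - 𝒢.w G))

/-- Proof: by `Ann.component` (and: the homogeneous components of an element of `low G` are in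
`low G`) we may assume `p` homogeneous of degree `m`. Fix `q` and let
`L p' = D F (X_G * (p' * q))`. `PD` for `G`, `m`, `L`: incomparable `H, K < G` by `D_inc`, `th G x` by
`S_F0` and `D_lin` (`W G ≤ W F`). So `L p = D G (z * p) = 0`. -/
def S_F2 : Prop := S_F0 → ∀ (Φ V : Type) [Fintype Φ] [PartialOrder Φ] [AddCommGroup V]
  [Module ℝ V] (𝒢 : Geo Φ V) (F G : Φ) (p : MvPolynomial Φ ℝ), G < F → p ∈ low G →
  Ann (𝒢.D G) p → Ann (𝒢.D F) (X G * p)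

/-- COMPLETE CHAINS. Proof: induction on `dim F` (`vert`, `facet`). -/
def S_CH : Prop := ∀ (Φ V : Type) [Fintype Φ] [PartialOrder Φ] [AddCommGroup V]
  [Module ℝ V] (𝒢 : Geo Φ V) (F : Φ), ∃ t : Finset Φ, (∀ G ∈ t, G < F) ∧
  IsChain (· ≤ ·) (t : Set Φ) ∧ t.card = 𝒢.dim F

/-- Proof: `PD` for `G`, `m = dim G` and `L p = D F (X_G * p)` (conditions as in `S_F2`) gives
`z` homogeneous of degree 0, `z = C κ`; in the degrees `m ≠ dim G` both sides are 0 (decompose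
`p ∈ low G` into components, which are in `low G`). Positivity: `S_CH` for `G`, `D_pos` for
`t` (face `G`) and for `insert G t` (face `F`). Then choose `κ`. -/
def S_F3 : Prop := S_F0 → S_CH → ∀ (Φ V : Type) [Fintype Φ] [PartialOrder Φ] [AddCommGroup V]
  [Module ℝ V] (𝒢 : Geo Φ V), ∃ κ, Kap 𝒢 κ

/-- Proof: induction on `dim G`. Take (`facet`) `T` with `H ≤ T < G`, `dim T + 1 = dim G`. If
`H = T`: for every `q`, `D H (p * q) = D H (p * proj H q)` (`ann_sub_proj`) and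
`κ * D H (p * proj H q) = D G (X_H * (p * proj H q)) = 0`. If `H < T`: `Ann (D T) (X_H * p)` in the same
way (`X_H * p ∈ low T`), then the induction hypothesis for `T`. -/
def S_DN : Prop := ∀ (Φ V : Type) [Fintype Φ] [PartialOrder Φ] [AddCommGroup V]
  [Module ℝ V] (𝒢 : Geo Φ V) (κ : Φ → Φ → ℝ), Kap 𝒢 κ → ∀ (G H : Φ) (p : MvPolynomial Φ ℝ),
  H < G → p ∈ low H → Ann (𝒢.D G) (X H * p) → Ann (𝒢.D H) p

open scoped Classical in
/-- CLASSES OF WEIGHTS. Proof: by induction on `n` there is `c'` with the four properties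
(`mem`, `hom`, `up`, `out`, and the value) for all `F` with `dim F ≤ n` (change `c'` only in
dimension `n + 1`). For `dim F = k` choose `c' F = C a * ∏_{G ∈ t} X_G` (`S_CH`, `D_pos`) with
`D F (c' F) = c F`; `out` follows from `ann_of_lt`-type degree reasons (degree `k + 1 > dim F`).
For `dim F = n + 1 > k`: put `c° G = c' G` if `k ≤ dim G`, `c° G = 0` otherwise. Claim: there is a
linear functional `L` on polynomials with `L (X_G * q) = D F (X_G * (c° G * q))` for all `G < F` and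
all `q ∈ low F` homogeneous of degree `dim F - k - 1`: define `L` on monomials (basis): for a
monomial choose a variable `G` of it. Independence of the choice: for `G, H` in the
monomial, `G ≠ H`, both below `F`: if incomparable both values are 0 (`D_inc`); if `H < G`:
`X_H * (c° G - c° H)` is in `low G` and in `Ann (D G)` (`up`/`out` for `G`; `c° G = c° H = 0` if
`dim G < k`), so by `S_F2` `X_G * (X_H * (c° G - c° H))` is in `Ann (D F)`. Then `PD` for `F`,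
`m = dim F - k`, `L`: incomparable `G, H`: by `D_inc`. Linear forms: if `m ≥ 2` write
`q = ∑ X_H q_H`: `L (th F x * (X_H * q')) = D F (X_H * (c° H * (th F x * q'))) = 0` (`D_lin`). If `m = 1`
(`dim F = k + 1`), `q` is a constant and `L (th F x) = ∑_{G < F} l_G(x) D F (X_G * c° G) =
∑_{G < F, dim G = k} l_G(x) κ G F D G (c' G) = 0`. `PD` gives `z = c' F` of degree `k` with
`D F (c' F * q) = L q`; so `D F (X_G * ((c' F - c° G) * q)) = 0` for homogeneous `q ∈ low F` of degree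
`dim F - k - 1`, hence for all `q` (`ann_sub_proj`, `ann_of_homog`). -/
def S_CC : Prop := S_F2 → S_F0 → S_CH → ∀ (Φ V : Type) [Fintype Φ] [PartialOrder Φ]
  [AddCommGroup V] [Module ℝ V] (𝒢 : Geo Φ V) (κ : Φ → Φ → ℝ), Kap 𝒢 κ →
  ∀ (k : ℕ) (c : Φ → ℝ), (∀ F, 𝒢.dim F = k + 1 → ∀ x ∈ 𝒢.W F, 𝒢.one x = 0 →
    ∑ G ∈ univ.filter (fun G => G < F ∧ 𝒢.dim G = k), κ G F * c G * 𝒢.l G x = 0) →
  ∃ c' : Φ → MvPolynomial Φ ℝ, Cls 𝒢 k c' ∧ ∀ F, 𝒢.dim F = k → 𝒢.D F (c' F) = c F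

open scoped Classical in
/-- Proof: strong induction on `dim F`. `dim F = k`: `w F * c F` has degree `k + 1 > dim F`
(`ann_of_lt`). `dim F > k`: test (`ann_of_homog`) with `q` homogeneous of degree
`dim F - k - 1`, `q ∈ low F` (`ann_sub_proj`). If this degree is positive, `q = ∑ X_G q_G` with `G < F`,
and `w F * c F * X_G` is in the annihilator: it is 0 if `dim G < k` (`out`), otherwise
`X_G * (w F * c F) = X_G * (w G * c G)` modulo `Ann (D F)` (`S_F1`, `up`), `w G * c G` is in `low G` and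
in `Ann (D G)` (induction): `S_F2`. If `dim F = k + 1`: `D F (w F * c F) =
∑_{G < F} l_G(pt F) D F (X_G * c F)`; it is `l_G(pt F) κ G F D G (c G)` if `dim G = k`, 0 if
`dim G < k`. -/
def S_WC : Prop := S_F2 → S_F1 → S_F0 → ∀ (Φ V : Type) [Fintype Φ] [PartialOrder Φ]
  [AddCommGroup V] [Module ℝ V] (𝒢 : Geo Φ V) (κ : Φ → Φ → ℝ), Kap 𝒢 κ →
  ∀ (k : ℕ) (c : Φ → MvPolynomial Φ ℝ), Cls 𝒢 k c →
  (∀ F, 𝒢.dim F = k + 1 → ∑ G ∈ univ.filter (fun G => G < F ∧ 𝒢.dim G = k),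
    κ G F * 𝒢.D G (c G) * 𝒢.l G (𝒢.pt F) = 0) →
  ∀ F, k ≤ 𝒢.dim F → Ann (𝒢.D F) (𝒢.w F * c F)

/-- A class that vanishes on all facets vanishes. Proof: test with homogeneous `q ∈ low F` of
positive degree `dim F - k`, `q = ∑ X_H q_H`, `H < F`: show `Ann (D F) (X_H * c F)`. If
`dim H < k`: `out`. Otherwise by `up` show `Ann (D F) (X_H * c H)`, which by `S_F2` follows from
`Ann (D H) (c H)`. Take a facet `T` with `H ≤ T < F`. `H = T`: hypothesis. `H < T`: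
`Ann (D T) (c T)`, `up` for `T`, `H` give `Ann (D T) (X_H * c H)`, then `S_DN`. -/
def S_F5 : Prop := S_F2 → S_DN → ∀ (Φ V : Type) [Fintype Φ] [PartialOrder Φ]
  [AddCommGroup V] [Module ℝ V] (𝒢 : Geo Φ V) (κ : Φ → Φ → ℝ), Kap 𝒢 κ →
  ∀ (k : ℕ) (c : Φ → MvPolynomial Φ ℝ), Cls 𝒢 k c → ∀ F, k < 𝒢.dim F →
  (∀ T, T < F → 𝒢.dim T + 1 = 𝒢.dim F → Ann (𝒢.D T) (c T)) → Ann (𝒢.D F) (c F)

/-- IMAGES ON THE STARS. Proof: `dim G < k`: `out` (and `ann_mulL`, `inIm_of_ann`). If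
`Ann (D G) (c G)`: `S_F2` and `up`. Otherwise `TStar G`: `c G - (w G)^q * b` in `Ann (D G)`, with
`q = 2 k - dim G ≥ l`; replace `b` by `z = proj G b` (`ann_sub_proj`), so `c G - (w G)^q * z ∈ low G`, by
`S_F2` it is killed by `X_G` and `D F`; `S_F1` and `ann_pow_sub` replace `w G` by `w F`, `up`
replaces `c G` by `c F`; `InIm.mono`. -/
def S_NR : Prop := S_F2 → S_F1 → S_F0 → ∀ (Φ V : Type) [Fintype Φ] [PartialOrder Φ]
  [AddCommGroup V] [Module ℝ V] (𝒢 : Geo Φ V)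
  (k : ℕ) (c : Φ → MvPolynomial Φ ℝ), Cls 𝒢 k c → ∀ F G, G < F → k ≤ 𝒢.dim F →
  (k ≤ 𝒢.dim G → TStar 𝒢 k c G) → ∀ l, l + 𝒢.dim G ≤ 2 * k →
  InIm (mulL (X G) (𝒢.D F)) (𝒢.w F) l (c F)

/-- CLAIM B. Take `e`, `T0` from `𝒢.hr F`, `η = et e F`, `n = dim F`. For `G < F` with
`e G ≠ 0`: `dim G + 2 ≤ dim F`, so `(l + 1) + dim G ≤ 2 k` and `S_NR` gives `b_G` with
`Ann (D F) (X_G * (c F - w^(l+1) * b_G))`; so `η * c F = - ∑ e_G X_G c F` is in the image of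
`w^(l+1)`. Then `S_KP2` with `j = k`. -/
def S_B : Prop := S_NR → S_KP2 → S_F2 → S_F1 → S_F0 → S_FK → ∀ (Φ V : Type) [Fintype Φ]
  [PartialOrder Φ] [AddCommGroup V] [Module ℝ V] (𝒢 : Geo Φ V)
  (k : ℕ) (c : Φ → MvPolynomial Φ ℝ), Cls 𝒢 k c →
  (∀ F, k ≤ 𝒢.dim F → Ann (𝒢.D F) (𝒢.w F * c F)) → ∀ F, k ≤ 𝒢.dim F →
  (∀ G, G < F → k ≤ 𝒢.dim G → TStar 𝒢 k c G) → ∀ l, l + 𝒢.dim F = 2 * k + 1 →
  InIm (𝒢.D F) (𝒢.w F) l (c F) → InIm (𝒢.D F) (𝒢.w F) (l + 1) (c F)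

/-- CLAIM A. Take `e`, `T0` from `𝒢.hr F`, `η = et e F`, `n = dim F`, `L = D F`,
`s = 2 k - n - l > 0`. `S_KP1` (`j = k`): `β` homogeneous of degree `i = n - k` with
`Ann L (w^(l+1) β)` and `y = c F - η^s w^l β ∈ Im w^(l+1)`. If `w^l β ∈ Im w^(l+1)` we are done.
Otherwise `S_FK` for `L`, `a = β` (`n - 2 i - l = s`): `η^(s+1) w^l β = η (c F - y)`, and
`η * c F ∈ Im w^(l+1)` as in claim B (`S_NR`: `(l + 1) + dim G ≤ 2 k` for all `G < F`). So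
`0 < (-1)^i L (β * (η^s * (w^l * β))) = - ∑_{G < F} e_G (-1)^i L_G (β * (η^(s-1) * (w^l * β)))`,
`L_G = mulL (X G) L`, degree `n - 1` (`homog_mulL`). But for each `G < F`, `S_FK` for `L_G`
(`(n - 1) - 2 i - l = s - 1`): `Ann L_G (w^(l+1) β)`, and `η^s w^l β = c F - y` is in
`Im w^(l+1)` modulo `Ann L_G` by `S_NR` and `InIm.mulL`: so
`0 ≤ (-1)^i L_G (β * (η^(s-1) * (w^l * β)))`. Contradiction, as `e_G ≥ 0`. -/
def S_A : Prop := S_NR → S_KP1 → S_DU → S_F2 → S_F1 → S_F0 → S_FK → ∀ (Φ V : Type) [Fintype Φ]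
  [PartialOrder Φ] [AddCommGroup V] [Module ℝ V] (𝒢 : Geo Φ V)
  (k : ℕ) (c : Φ → MvPolynomial Φ ℝ), Cls 𝒢 k c →
  (∀ F, k ≤ 𝒢.dim F → Ann (𝒢.D F) (𝒢.w F * c F)) → ∀ F, k ≤ 𝒢.dim F →
  (∀ G, G < F → k ≤ 𝒢.dim G → TStar 𝒢 k c G) → ∀ l, l + 𝒢.dim F < 2 * k →
  InIm (𝒢.D F) (𝒢.w F) l (c F) → InIm (𝒢.D F) (𝒢.w F) (l + 1) (c F)

/-- CLAIM C. Proof: if `dim F = k` then `l > k` and `InIm.homog` gives `Ann`. If `k < dim F`: by
`S_F5` it suffices that `Ann (D T) (c T)` for every facet `T` of `F` (`k ≤ dim T`). Suppose not: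
`TStar T` says `c T` is not in `Im (w T)^(2k+1-dim T)`, and `2 k + 1 - dim T ≤ l`. But
`c T ∈ Im (w T)^l` by `S_DU` (`n = dim T`, `j = k`): let `a` be homogeneous with
`Ann (D T) ((w T)^l * a)`, `a' = proj T a`. Then `(w T)^l * a' ∈ low T` is in `Ann (D T)`, so by `S_F2`,
`S_F1`, `ann_pow_sub` `X_T * ((w F)^l * a')` is in `Ann (D F)`, hence
`D F (X_T * a' * c F) = 0` (`InIm.orth` for `mulL (X T) (D F)`), `= D F (X_T * (a' * c T))` by `up`,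
`= κ T F * D T (a' * c T)`. -/
def S_C : Prop := S_F5 → S_DU → S_DN → S_F2 → S_F1 → S_F0 → ∀ (Φ V : Type) [Fintype Φ]
  [PartialOrder Φ] [AddCommGroup V] [Module ℝ V] (𝒢 : Geo Φ V) (κ : Φ → Φ → ℝ), Kap 𝒢 κ →
  ∀ (k : ℕ) (c : Φ → MvPolynomial Φ ℝ), Cls 𝒢 k c → ∀ F, k ≤ 𝒢.dim F →
  (∀ G, G < F → k ≤ 𝒢.dim G → TStar 𝒢 k c G) → ∀ l, 2 * k + 2 ≤ l + 𝒢.dim F →
  InIm (𝒢.D F) (𝒢.w F) l (c F) → Ann (𝒢.D F) (c F)

/-- T*. Proof: strong induction on `dim F`. Suppose `c F` is not in the annihilator. By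
`InIm.homog` `c F` is not in `Im w^(k+1)`; let `l + 1` be minimal with `c F ∉ Im w^(l+1)`
(`inIm_zero`). Claims A, B, C leave only `l + dim F = 2 k`. -/
def S_TS : Prop := ∀ (Φ V : Type) [Fintype Φ]
  [PartialOrder Φ] [AddCommGroup V] [Module ℝ V] (𝒢 : Geo Φ V)
  (k : ℕ) (c : Φ → MvPolynomial Φ ℝ), Cls 𝒢 k c →
  (∀ F, k ≤ 𝒢.dim F → (∀ G, G < F → k ≤ 𝒢.dim G → TStar 𝒢 k c G) →
    ∀ l, l + 𝒢.dim F = 2 * k + 1 →
    InIm (𝒢.D F) (𝒢.w F) l (c F) → InIm (𝒢.D F) (𝒢.w F) (l + 1) (c F)) →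
  (∀ F, k ≤ 𝒢.dim F → (∀ G, G < F → k ≤ 𝒢.dim G → TStar 𝒢 k c G) →
    ∀ l, l + 𝒢.dim F < 2 * k →
    InIm (𝒢.D F) (𝒢.w F) l (c F) → InIm (𝒢.D F) (𝒢.w F) (l + 1) (c F)) →
  (∀ F, k ≤ 𝒢.dim F → (∀ G, G < F → k ≤ 𝒢.dim G → TStar 𝒢 k c G) →
    ∀ l, 2 * k + 2 ≤ l + 𝒢.dim F →
    InIm (𝒢.D F) (𝒢.w F) l (c F) → Ann (𝒢.D F) (c F)) →
  ∀ F, k ≤ 𝒢.dim F → TStar 𝒢 k c F

open scoped Classical in
/-- BAL. Assembled from the other statements (not a module). -/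
def S_BAL : Prop := ∀ (Φ V : Type) [Fintype Φ]
  [PartialOrder Φ] [AddCommGroup V] [Module ℝ V] (𝒢 : Geo Φ V) (κ : Φ → Φ → ℝ), Kap 𝒢 κ →
  ∀ (k : ℕ) (c : Φ → ℝ), (∀ F, 𝒢.dim F = k + 1 → ∀ x ∈ 𝒢.W F,
    ∑ G ∈ univ.filter (fun G => G < F ∧ 𝒢.dim G = k), κ G F * c G * 𝒢.l G x = 0) →
  ∀ Q, 2 * k < 𝒢.dim Q → ∀ F ≤ Q, 𝒢.dim F = k → c F = 0

open scoped Classical in
/-- COUNTING. Proof: otherwise the linear map from the functions on the faces of dimension `k`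
to `∏_{dim F = k + 1} Dual (W F)`, `c ↦ (x ↦ ∑ κ G F * c G * l_G x)`, has a nonzero kernel, as
`dim Dual (W F) = k + 2` (`W_fin`, `W_rank`). Contradiction to `S_BAL`. -/
def S_WU : Prop := S_BAL → ∀ (Φ V : Type) [Fintype Φ]
  [PartialOrder Φ] [AddCommGroup V] [Module ℝ V] (𝒢 : Geo Φ V) (κ : Φ → Φ → ℝ), Kap 𝒢 κ →
  ∀ (k : ℕ) (Q : Φ), (∀ F, F ≤ Q) → 2 * k < 𝒢.dim Q →
  (univ.filter (fun F => 𝒢.dim F = k)).card ≤
    (k + 2) * (univ.filter (fun F => 𝒢.dim F = k + 1)).card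

end geo

end Pool.Agent.KF.G
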