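import Pool.Agent.KF.G.Stmts

/-!
Assembly of part G: BAL from the modules.
-/

set_option autoImplicit false

namespace Pool.Agent.KF.G

open MvPolynomial Finset

theorem bal (hFK : S_FK) (hDU : S_DU) (hKP1 : S_KP1) (hKP2 : S_KP2) (hF0 : S_F0) (hF1 : S_F1)
    (hF2 : S_F2) (hCH : S_CH) (hDN : S_DN) (hCC : S_CC) (hWC : S_WC) (hF5 : S_F5) (hNR : S_NR)
    (hB : S_B) (hA : S_A) (hC : S_C) (hTS : S_TS) : S_BAL := by
  classical
  intro Φ V _ _ _ _ 𝒢 κ hκ k c hc Q hQ F hF hFk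
  obtain ⟨c', hcls, hval⟩ := hCC hF2 hF0 hCH Φ V 𝒢 κ hκ k c
    (fun F hF x hx _ => by convert hc F hF x hx)
  have hw : ∀ F, k ≤ 𝒢.dim F → Ann (𝒢.D F) (𝒢.w F * c' F) := by
    apply hWC hF2 (hF1) hF0 Φ V 𝒢 κ hκ k c' hcls
    intro F hF
    rw [← hc F hF (𝒢.pt F) (𝒢.pt_mem F)]
    apply Finset.sum_congr (by congr)
    intro G hG
    rw [hval G (Finset.mem_filter.1 hG).2.2]
  have hts := hTS Φ V 𝒢 k c' hcls
    (fun F hF ih l hl hi => hB hNR hKP2 hF2 hF1 hF0 hFK Φ V 𝒢 k c' hcls hw F hF ih l hl hi)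
    (fun F hF ih l hl hi => hA hNR hKP1 hDU hF2 hF1 hF0 hFK Φ V 𝒢 k c' hcls hw F hF ih l hl hi)
    (fun F hF ih l hl hi => hC hF5 hDU hDN hF2 hF1 hF0 Φ V 𝒢 κ hκ k c' hcls F hF ih l hl hi)
  have hQa : Ann (𝒢.D Q) (c' Q) := by
    by_contra h
    have := (hts Q (by omega) h).1
    omega
  have hlt : F < Q := lt_of_le_of_ne hF (by rintro rfl; omega)
  have h1 : Ann (𝒢.D Q) (X F * c' F) := by
    have h2 := hcls.up Q F hlt hFk.ge
    have h3 := (hQa.mul_left (X F)).sub h2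
    have e : X F * c' Q - X F * (c' Q - c' F) = X F * c' F := by ring
    rwa [e] at h3
  have h4 : Ann (𝒢.D F) (c' F) := hDN Φ V 𝒢 κ hκ Q F (c' F) hlt (hcls.mem F hFk.ge) h1
  rw [← hval F hFk]
  exact h4.apply

end Pool.Agent.KF.G
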