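import Pool.Agent.KF.G.Defs

/-!
Basic lemmas on annihilators, images, the subalgebras `low F` and the forms `th`, `et`.
-/

set_option autoImplicit false

namespace Pool.Agent.KF.G

open MvPolynomial Finset

section fn

variable {Φ : Type} {L : Fn Φ}

lemma mulL_apply (g q : MvPolynomial Φ ℝ) (L : Fn Φ) : mulL g L q = L (g * q) := rfl

lemma Ann.apply {p : MvPolynomial Φ ℝ} (h : Ann L p) : L p = 0 := by
  simpa using h 1

lemma ann_zero (L : Fn Φ) : Ann L 0 := fun q => by simp

lemma Ann.add {p p' : MvPolynomial Φ ℝ} (h : Ann L p) (h' : Ann L p') : Ann L (p + p') :=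
  fun q => by rw [add_mul, map_add, h q, h' q, add_zero]

lemma Ann.neg {p : MvPolynomial Φ ℝ} (h : Ann L p) : Ann L (-p) :=
  fun q => by rw [neg_mul, map_neg, h q, neg_zero]

lemma Ann.sub {p p' : MvPolynomial Φ ℝ} (h : Ann L p) (h' : Ann L p') : Ann L (p - p') :=
  fun q => by rw [sub_mul, map_sub, h q, h' q, sub_zero]

lemma Ann.mul_right {p : MvPolynomial Φ ℝ} (h : Ann L p) (r : MvPolynomial Φ ℝ) :
    Ann L (p * r) := fun q => by rw [mul_assoc]; exact h _

lemma Ann.mul_left {p : MvPolynomial Φ ℝ} (h : Ann L p) (r : MvPolynomial Φ ℝ) :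
    Ann L (r * p) := by rw [mul_comm]; exact h.mul_right r

lemma ann_sum {ι : Type*} {s : Finset ι} {f : ι → MvPolynomial Φ ℝ}
    (h : ∀ i ∈ s, Ann L (f i)) : Ann L (∑ i ∈ s, f i) := fun q => by
  rw [Finset.sum_mul, map_sum]
  exact Finset.sum_eq_zero fun i hi => h i hi q

lemma ann_mulL {g p : MvPolynomial Φ ℝ} : Ann (mulL g L) p ↔ Ann L (g * p) := by
  constructor
  · intro h q
    rw [mul_assoc]
    exact h q
  · intro h q
    rw [mulL_apply, ← mul_assoc]
    exact h q

lemma Ann.mulL {p : MvPolynomial Φ ℝ} (h : Ann L p) (g : MvPolynomial Φ ℝ) :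
    Ann (mulL g L) p := ann_mulL.2 (h.mul_left g)

lemma Ann.congr {p p' : MvPolynomial Φ ℝ} (h : Ann L (p - p')) : Ann L p ↔ Ann L p' := by
  constructor
  · intro hp
    have := hp.sub h
    rwa [sub_sub_cancel] at this
  · intro hp
    have := hp.add h
    rwa [add_sub_cancel] at this

lemma Ann.symm {p p' : MvPolynomial Φ ℝ} (h : Ann L (p - p')) : Ann L (p' - p) := by
  rw [← neg_sub]; exact h.neg

lemma Ann.apply_eq {p p' : MvPolynomial Φ ℝ} (h : Ann L (p - p')) (q : MvPolynomial Φ ℝ) :
    L (p * q) = L (p' * q) := by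
  have := h q
  rw [sub_mul, map_sub, sub_eq_zero] at this
  exact this

/-- congruence modulo the annihilator: powers -/
lemma ann_pow_sub {g w w' : MvPolynomial Φ ℝ} (h : Ann L (g * (w - w'))) (n : ℕ) :
    Ann L (g * (w ^ n - w' ^ n)) := by
  obtain ⟨c, hc⟩ := sub_dvd_pow_sub_pow w w' n
  rw [hc, ← mul_assoc]
  exact h.mul_right c

lemma inIm_of_ann {N x : MvPolynomial Φ ℝ} (l : ℕ) (h : Ann L x) : InIm L N l x :=
  ⟨0, by simpa using h⟩

lemma inIm_zero (L : Fn Φ) (N x : MvPolynomial Φ ℝ) : InIm L N 0 x :=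
  ⟨x, by simpa using ann_zero L⟩

lemma inIm_pow (L : Fn Φ) (N : MvPolynomial Φ ℝ) (l : ℕ) (y : MvPolynomial Φ ℝ) :
    InIm L N l (N ^ l * y) := ⟨y, by simpa using ann_zero L⟩

lemma InIm.add {N x y : MvPolynomial Φ ℝ} {l : ℕ} (h : InIm L N l x) (h' : InIm L N l y) :
    InIm L N l (x + y) := by
  obtain ⟨b, hb⟩ := h
  obtain ⟨c, hc⟩ := h'
  refine ⟨b + c, ?_⟩
  have := hb.add hc
  convert this using 1
  ring

lemma InIm.mul_left {N x : MvPolynomial Φ ℝ} {l : ℕ} (h : InIm L N l x)
    (y : MvPolynomial Φ ℝ) : InIm L N l (y * x) := by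
  obtain ⟨b, hb⟩ := h
  refine ⟨y * b, ?_⟩
  have := hb.mul_left y
  convert this using 1
  ring

lemma InIm.mul_right {N x : MvPolynomial Φ ℝ} {l : ℕ} (h : InIm L N l x)
    (y : MvPolynomial Φ ℝ) : InIm L N l (x * y) := by
  rw [mul_comm]; exact h.mul_left y

lemma InIm.neg {N x : MvPolynomial Φ ℝ} {l : ℕ} (h : InIm L N l x) : InIm L N l (-x) := by
  have := h.mul_left (-1)
  simpa using this

lemma InIm.sub {N x y : MvPolynomial Φ ℝ} {l : ℕ} (h : InIm L N l x) (h' : InIm L N l y) :
    InIm L N l (x - y) := by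
  rw [sub_eq_add_neg]; exact h.add h'.neg

lemma inIm_sum {ι : Type*} {s : Finset ι} {f : ι → MvPolynomial Φ ℝ} {N : MvPolynomial Φ ℝ}
    {l : ℕ} (h : ∀ i ∈ s, InIm L N l (f i)) : InIm L N l (∑ i ∈ s, f i) := by
  classical
  induction s using Finset.induction_on with
  | empty => simpa using inIm_of_ann l (ann_zero L)
  | insert a s ha ih =>
    rw [Finset.sum_insert ha]
    exact (h a (Finset.mem_insert_self a s)).add
      (ih fun i hi => h i (Finset.mem_insert_of_mem hi))

lemma InIm.congr {N x y : MvPolynomial Φ ℝ} {l : ℕ} (h : InIm L N l x) (hxy : Ann L (y - x)) :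
    InIm L N l y := by
  have := h.add (inIm_of_ann (N := N) l hxy)
  rwa [add_sub_cancel] at this

lemma InIm.mono {N x : MvPolynomial Φ ℝ} {l l' : ℕ} (hl : l ≤ l') (h : InIm L N l' x) :
    InIm L N l x := by
  obtain ⟨b, hb⟩ := h
  obtain ⟨d, rfl⟩ := Nat.exists_eq_add_of_le hl
  refine ⟨N ^ d * b, ?_⟩
  convert hb using 2
  rw [pow_add]; ring

lemma InIm.mulL {N x : MvPolynomial Φ ℝ} {l : ℕ} (h : InIm L N l x) (g : MvPolynomial Φ ℝ) :
    InIm (mulL g L) N l x := by
  obtain ⟨b, hb⟩ := h
  exact ⟨b, hb.mulL g⟩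

/-- an element of the image of `N ^ l` is orthogonal to the kernel of `N ^ l` -/
lemma InIm.orth {N x a : MvPolynomial Φ ℝ} {l : ℕ} (h : InIm L N l x)
    (ha : Ann L (N ^ l * a)) : L (a * x) = 0 := by
  obtain ⟨b, hb⟩ := h
  have h1 := hb a
  rw [sub_mul, map_sub] at h1
  have h2 := ha b
  have e1 : x * a = a * x := mul_comm _ _
  have e2 : N ^ l * b * a = N ^ l * a * b := by ring
  rw [e1, e2, h2, sub_zero] at h1
  exact h1

/-- homogeneous functionals see only one component -/
lemma Homog.apply_eq {n : ℕ} (hL : Homog L n) (p : MvPolynomial Φ ℝ) :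
    L p = L (homogeneousComponent n p) := by
  classical
  conv_lhs => rw [← sum_homogeneousComponent p]
  rw [map_sum]
  by_cases hn : n ∈ range (p.totalDegree + 1)
  · rw [Finset.sum_eq_single_of_mem n hn]
    intro m _ hm
    exact hL m _ (homogeneousComponent_isHomogeneous m p) hm
  · rw [Finset.sum_eq_zero, homogeneousComponent_eq_zero, map_zero]
    · rw [mem_range] at hn; omega
    · intro m hm
      apply hL m _ (homogeneousComponent_isHomogeneous m p)
      rintro rfl
      exact hn hm

/-- homogeneous test: it suffices to test with homogeneous elements of the right degree -/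
lemma ann_of_homog {n j : ℕ} (hL : Homog L n) {p : MvPolynomial Φ ℝ} (hp : p.IsHomogeneous j)
    (h : ∀ (m : ℕ) (q : MvPolynomial Φ ℝ), q.IsHomogeneous m → j + m = n → L (p * q) = 0) :
    Ann L p := by
  classical
  intro q
  conv_lhs => rw [← sum_homogeneousComponent q]
  rw [Finset.mul_sum, map_sum]
  apply Finset.sum_eq_zero
  intro m _
  have hm := homogeneousComponent_isHomogeneous m q
  by_cases hjm : j + m = n
  · exact h m _ hm hjm
  · exact hL (j + m) _ (hp.mul hm) hjm

/-- elements of degree above the degree of the functional are in the annihilator -/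
lemma ann_of_lt {n j : ℕ} (hL : Homog L n) {p : MvPolynomial Φ ℝ} (hp : p.IsHomogeneous j)
    (h : n < j) : Ann L p :=
  ann_of_homog hL hp fun m q _ hjm => by omega

lemma homog_mulL {n j : ℕ} (hL : Homog L n) {g : MvPolynomial Φ ℝ} (hg : g.IsHomogeneous j)
    (hj : j ≤ n) : Homog (mulL g L) (n - j) := by
  intro m p hp hm
  rw [mulL_apply]
  exact hL (j + m) _ (hg.mul hp) (by omega)

/-- components of annihilator elements -/
lemma Ann.component {n : ℕ} (hL : Homog L n) {p : MvPolynomial Φ ℝ} (h : Ann L p) (j : ℕ) :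
    Ann L (homogeneousComponent j p) := by
  classical
  apply ann_of_homog hL (homogeneousComponent_isHomogeneous j p)
  intro m q hq hjm
  have h1 := h q
  rw [hL.apply_eq] at h1
  have h2 : homogeneousComponent n (p * q) = homogeneousComponent j p * q := by
    conv_lhs => rw [← sum_homogeneousComponent p]
    rw [Finset.sum_mul, map_sum]
    have h3 : ∀ i, homogeneousComponent n (homogeneousComponent i p * q) =
        if i = j then homogeneousComponent j p * q else 0 := by
      intro i
      have h4 := (homogeneousComponent_isHomogeneous i p).mul hq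
      rw [homogeneousComponent_of_mem ((mem_homogeneousSubmodule _ _).2 h4)]
      by_cases hij : i = j
      · subst hij
        rw [if_pos rfl, if_pos hjm.symm]
      · rw [if_neg hij, if_neg (by omega)]
    rw [Finset.sum_congr rfl (fun i _ => h3 i), Finset.sum_ite_eq']
    split_ifs with h5
    · rfl
    · rw [mem_range] at h5
      rw [homogeneousComponent_eq_zero _ _ (by omega), zero_mul]
  rw [h2] at h1
  exact h1

/-- a homogeneous element of the image of `N ^ l` -/
lemma InIm.homog {n j l : ℕ} (hL : Homog L n) {N x : MvPolynomial Φ ℝ} (hN : N.IsHomogeneous 1)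
    (hx : x.IsHomogeneous j) (h : InIm L N l x) :
    (l ≤ j ∧ ∃ b : MvPolynomial Φ ℝ, b.IsHomogeneous (j - l) ∧ Ann L (x - N ^ l * b)) ∨
      (j < l ∧ Ann L x) := by
  classical
  obtain ⟨b, hb⟩ := h
  have hNl : (N ^ l).IsHomogeneous l := by simpa using hN.pow l
  have h1 := hb.component hL j
  rw [map_sub, homogeneousComponent_of_mem ((mem_homogeneousSubmodule _ _).2 hx), if_pos rfl] at h1
  by_cases hlj : l ≤ j
  · left
    refine ⟨hlj, homogeneousComponent (j - l) b, homogeneousComponent_isHomogeneous _ _, ?_⟩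
    have h2 : homogeneousComponent j (N ^ l * b) = N ^ l * homogeneousComponent (j - l) b := by
      conv_lhs => rw [← sum_homogeneousComponent b]
      rw [Finset.mul_sum, map_sum]
      have h3 : ∀ i, homogeneousComponent j (N ^ l * homogeneousComponent i b) =
          if i = j - l then N ^ l * homogeneousComponent (j - l) b else 0 := by
        intro i
        have h4 := hNl.mul (homogeneousComponent_isHomogeneous i b)
        rw [homogeneousComponent_of_mem ((mem_homogeneousSubmodule _ _).2 h4)]
        by_cases hij : i = j - l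
        · subst hij
          rw [if_pos rfl, if_pos (by omega)]
        · rw [if_neg hij, if_neg (by omega)]
      rw [Finset.sum_congr rfl (fun i _ => h3 i), Finset.sum_ite_eq']
      split_ifs with h5
      · rfl
      · rw [mem_range] at h5
        rw [homogeneousComponent_eq_zero _ _ (by omega), mul_zero]
    rw [h2] at h1
    exact h1
  · right
    refine ⟨by omega, ?_⟩
    have h2 : homogeneousComponent j (N ^ l * b) = 0 := by
      conv_lhs => rw [← sum_homogeneousComponent b]
      rw [Finset.mul_sum, map_sum]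
      apply Finset.sum_eq_zero
      intro i _
      have h4 := hNl.mul (homogeneousComponent_isHomogeneous i b)
      rw [homogeneousComponent_of_mem ((mem_homogeneousSubmodule _ _).2 h4), if_neg (by omega)]
    rw [h2, sub_zero] at h1
    exact h1

end fn

section low

variable {Φ : Type} [PartialOrder Φ]

lemma low_mono {G F : Φ} (h : G ≤ F) : low G ≤ low F :=
  supported_mono fun _ hH => lt_of_lt_of_le hH h

lemma X_mem_low {G F : Φ} (h : G < F) : (X G : MvPolynomial Φ ℝ) ∈ low F :=
  X_mem_supported.2 h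

lemma C_mem_low (F : Φ) (a : ℝ) : (C a : MvPolynomial Φ ℝ) ∈ low F := (low F).algebraMap_mem a

variable {V : Type} [Fintype Φ] [AddCommGroup V] [Module ℝ V]

lemma th_mem_low (l : Φ → V →ₗ[ℝ] ℝ) (F : Φ) (x : V) : th l F x ∈ low F := by
  classical
  unfold th
  exact Subalgebra.sum_mem _ fun G hG =>
    (low F).mul_mem (C_mem_low F _) (X_mem_low (Finset.mem_filter.1 hG).2)

lemma th_homog (l : Φ → V →ₗ[ℝ] ℝ) (F : Φ) (x : V) : (th l F x).IsHomogeneous 1 := by
  classical
  unfold th
  apply IsHomogeneous.sum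
  intro G _
  simpa using (isHomogeneous_C Φ (l G x)).mul (isHomogeneous_X ℝ G)

lemma et_homog (e : Φ → ℝ) (F : Φ) : (et e F).IsHomogeneous 1 := by
  classical
  unfold et
  apply IsHomogeneous.neg
  apply IsHomogeneous.sum
  intro G _
  simpa using (isHomogeneous_C Φ (e G)).mul (isHomogeneous_X ℝ G)

lemma et_mem_low (e : Φ → ℝ) (F : Φ) : et e F ∈ low F := by
  classical
  unfold et
  exact (low F).neg_mem (Subalgebra.sum_mem _ fun G hG =>
    (low F).mul_mem (C_mem_low F _) (X_mem_low (Finset.mem_filter.1 hG).2))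

lemma th_add (l : Φ → V →ₗ[ℝ] ℝ) (F : Φ) (x y : V) : th l F (x + y) = th l F x + th l F y := by
  classical
  unfold th
  rw [← Finset.sum_add_distrib]
  exact Finset.sum_congr rfl fun G _ => by rw [map_add, C_add, add_mul]

lemma th_sub (l : Φ → V →ₗ[ℝ] ℝ) (F : Φ) (x y : V) : th l F (x - y) = th l F x - th l F y := by
  classical
  unfold th
  rw [← Finset.sum_sub_distrib]
  exact Finset.sum_congr rfl fun G _ => by rw [map_sub, C_sub, sub_mul]

end low

section proj

variable {Φ : Type} [PartialOrder Φ]

open scoped Classical in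
/-- set the variables that are not strictly below `F` to zero -/
noncomputable def proj (F : Φ) : MvPolynomial Φ ℝ →ₐ[ℝ] MvPolynomial Φ ℝ :=
  aeval fun G => if G < F then X G else 0

lemma proj_X (F G : Φ) [Decidable (G < F)] : proj F (X G) = if G < F then X G else 0 := by
  unfold proj
  rw [aeval_X]
  congr

lemma proj_mem (F : Φ) (p : MvPolynomial Φ ℝ) : proj F p ∈ low F := by
  classical
  induction p using MvPolynomial.induction_on with
  | C a =>
    have : proj F (C a) = C a := by unfold proj; exact algHom_C _ a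
    rw [this]; exact C_mem_low F a
  | add p q hp hq => rw [map_add]; exact (low F).add_mem hp hq
  | mul_X p i hp =>
    rw [map_mul, proj_X]
    split_ifs with h
    · exact (low F).mul_mem hp (X_mem_low h)
    · rw [mul_zero]; exact (low F).zero_mem

lemma proj_of_mem {F : Φ} {p : MvPolynomial Φ ℝ} (h : p ∈ low F) : proj F p = p := by
  classical
  have h1 : p ∈ Algebra.adjoin ℝ (X '' {G : Φ | G < F}) := h
  induction h1 using Algebra.adjoin_induction with
  | mem x hx =>
    obtain ⟨G, hG, rfl⟩ := hx
    rw [proj_X]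
    exact if_pos hG
  | algebraMap r => exact (proj F).commutes r
  | add x y hx hy ihx ihy => rw [map_add, ihx hx, ihy hy]
  | mul x y hx hy ihx ihy => rw [map_mul, ihx hx, ihy hy]

lemma proj_homog {F : Φ} {p : MvPolynomial Φ ℝ} {m : ℕ} (h : p.IsHomogeneous m) :
    (proj F p).IsHomogeneous m := by
  classical
  have := h.aeval (fun G => if G < F then (X G : MvPolynomial Φ ℝ) else 0) (n := 1) (by
    intro G
    split_ifs
    · exact isHomogeneous_X ℝ G
    · exact isHomogeneous_zero _ _ _)
  rw [one_mul] at this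
  unfold proj
  exact this

variable {V : Type} [Fintype Φ] [AddCommGroup V] [Module ℝ V]

lemma Geo.ann_sub_proj (𝒢 : Geo Φ V) (F : Φ) (p : MvPolynomial Φ ℝ) :
    Ann (𝒢.D F) (p - proj F p) := by
  classical
  induction p using MvPolynomial.induction_on with
  | C a =>
    have : proj F (C a) = C a := by unfold proj; exact algHom_C _ a
    rw [this, sub_self]; exact ann_zero _
  | add p q hp hq =>
    have := hp.add hq
    rw [map_add]
    convert this using 1
    ring
  | mul_X p i hp =>
    rw [map_mul, proj_X]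
    split_ifs with h
    · have := hp.mul_right (X i)
      convert this using 1
      ring
    · rw [mul_zero, sub_zero]
      intro q
      have := 𝒢.D_out F i h (p * q)
      rw [← this]
      congr 1
      ring

end proj

end Pool.Agent.KF.G
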