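import Mathlib

/-!
Part G of the proof of BAL (MP_716236_co): face data of a polytope, with one degree functional
`D F` on `MvPolynomial Φ ℝ` for every nonempty face `F` (the functional of the barycentric
truncation of `F`). See `PAPER_G.md`.
-/

set_option autoImplicit false

namespace Pool.Agent.KF.G

open MvPolynomial Finset

/-- functionals on the polynomial ring in the faces -/
abbrev Fn (Φ : Type) := MvPolynomial Φ ℝ →ₗ[ℝ] ℝ

section fn

variable {Φ : Type}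

/-- `p` kills the functional `L`. -/
def Ann (L : Fn Φ) (p : MvPolynomial Φ ℝ) : Prop := ∀ q, L (p * q) = 0

/-- `L` is homogeneous of degree `n`. -/
def Homog (L : Fn Φ) (n : ℕ) : Prop :=
  ∀ (m : ℕ) (p : MvPolynomial Φ ℝ), p.IsHomogeneous m → m ≠ n → L p = 0

/-- the functional `q ↦ L (g * q)` -/
noncomputable def mulL (g : MvPolynomial Φ ℝ) (L : Fn Φ) : Fn Φ :=
  L ∘ₗ LinearMap.mulLeft ℝ g

/-- Hodge-Riemann relations for the functional `L` of degree `n` and the linear form `w`. -/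
def HR (L : Fn Φ) (n : ℕ) (w : MvPolynomial Φ ℝ) : Prop :=
  ∀ (i : ℕ) (p : MvPolynomial Φ ℝ), p.IsHomogeneous i → 2 * i ≤ n →
    Ann L (w ^ (n - 2 * i + 1) * p) → ¬ Ann L p →
    0 < (-1 : ℝ) ^ i * L (p * (w ^ (n - 2 * i) * p))

/-- `x` is in the image of `N ^ l` modulo the annihilator of `L`. -/
def InIm (L : Fn Φ) (N : MvPolynomial Φ ℝ) (l : ℕ) (x : MvPolynomial Φ ℝ) : Prop :=
  ∃ b, Ann L (x - N ^ l * b)

end fn

/-- The polynomials in the faces strictly below `F`. -/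
noncomputable abbrev low {Φ : Type} [PartialOrder Φ] (F : Φ) : Subalgebra ℝ (MvPolynomial Φ ℝ) :=
  MvPolynomial.supported ℝ {G : Φ | G < F}

open scoped Classical in
/-- `∑_{G < F} l_G(x) X_G` -/
noncomputable def th {Φ V : Type} [Fintype Φ] [PartialOrder Φ] [AddCommGroup V] [Module ℝ V]
    (l : Φ → V →ₗ[ℝ] ℝ) (F : Φ) (x : V) : MvPolynomial Φ ℝ :=
  ∑ G ∈ univ.filter (fun G => G < F), C (l G x) * X G

open scoped Classical in
/-- `- ∑_{G < F} e_G X_G` -/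
noncomputable def et {Φ : Type} [Fintype Φ] [PartialOrder Φ] (e : Φ → ℝ) (F : Φ) :
    MvPolynomial Φ ℝ :=
  - ∑ G ∈ univ.filter (fun G => G < F), C (e G) * X G

/-- Face data. `Φ` is the set of all nonempty faces of a polytope `Q` (with `Q` itself), the
polytope lies in the hyperplane `one = 1` of `V`, `W F` is the linear span of the face `F`,
`l F` is a linear functional that is `0` on `F` and positive on the rest of the polytope, `pt F` is a
point of the face `F`, `D F` is the degree functional of the face `F`. -/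
structure Geo (Φ V : Type) [Fintype Φ] [PartialOrder Φ] [AddCommGroup V] [Module ℝ V] where
  dim : Φ → ℕ
  dim_lt : ∀ {G F : Φ}, G < F → dim G < dim F
  facet : ∀ {G F : Φ}, G < F → ∃ T, G ≤ T ∧ T < F ∧ dim T + 1 = dim F
  vert : ∀ F : Φ, 0 < dim F → ∃ G, G < F
  W : Φ → Submodule ℝ V
  W_mono : ∀ {G F : Φ}, G ≤ F → W G ≤ W F
  W_fin : ∀ F, Module.Finite ℝ (W F)
  W_rank : ∀ F, Module.finrank ℝ (W F) = dim F + 1
  one : V →ₗ[ℝ] ℝ
  pt : Φ → V
  pt_mem : ∀ F, pt F ∈ W F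
  pt_one : ∀ F, one (pt F) = 1
  l : Φ → V →ₗ[ℝ] ℝ
  l_zero : ∀ {G F : Φ}, G ≤ F → ∀ x ∈ W G, l F x = 0
  D : Φ → Fn Φ
  D_homog : ∀ F, Homog (D F) (dim F)
  D_out : ∀ F G, ¬ G < F → ∀ q, D F (X G * q) = 0
  D_inc : ∀ F G H, ¬ G ≤ H → ¬ H ≤ G → ∀ q, D F (X G * (X H * q)) = 0
  D_lin : ∀ F, ∀ x ∈ W F, one x = 0 → ∀ q, D F (th l F x * q) = 0
  D_pos : ∀ (F : Φ) (t : Finset Φ), (∀ G ∈ t, G < F) → IsChain (· ≤ ·) (t : Set Φ) →
    t.card = dim F → 0 < D F (∏ G ∈ t, X G)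
  PD : ∀ (F : Φ) (m : ℕ) (L : Fn Φ),
    (∀ G H, G < F → H < F → ¬ G ≤ H → ¬ H ≤ G → ∀ q ∈ low F,
      (X G * (X H * q)).IsHomogeneous m → L (X G * (X H * q)) = 0) →
    (∀ x ∈ W F, one x = 0 → ∀ q ∈ low F, (th l F x * q).IsHomogeneous m → L (th l F x * q) = 0) →
    ∃ z ∈ low F, z.IsHomogeneous (dim F - m) ∧
      ∀ q ∈ low F, q.IsHomogeneous m → L q = D F (z * q)
  hr : ∀ F, ∃ e : Φ → ℝ, (∀ G, 0 ≤ e G) ∧ (∀ G, dim G + 1 = dim F → e G = 0) ∧
    ∃ T0 : ℝ, ∀ T ≥ T0, HR (D F) (dim F) (et e F + C T * th l F (pt F)) ∧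
      ∀ G < F, HR (mulL (X G) (D F)) (dim F - 1) (et e F + C T * th l F (pt F))

end Pool.Agent.KF.G
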