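import Pool.Agent.KF.G.Stmts

/-!
Counting: `f_k ≤ (k + 2) f_(k+1)` from BAL, by rank and nullity.
-/

set_option autoImplicit false

namespace Pool.Agent.KF.G

open MvPolynomial Finset

open scoped Classical in
theorem wu : S_WU := by
  intro hBAL Φ V _ _ _ _ 𝒢 κ hκ k Q hQ hk
  by_contra hlt
  rw [not_le] at hlt
  haveI : ∀ F, Module.Finite ℝ (𝒢.W F) := 𝒢.W_fin
  let T : ({G : Φ // 𝒢.dim G = k} → ℝ) →ₗ[ℝ]
      (∀ F : {F : Φ // 𝒢.dim F = k + 1}, Module.Dual ℝ (𝒢.W F.1)) :=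
    LinearMap.pi fun F => ∑ G : {G : Φ // 𝒢.dim G = k},
      (LinearMap.proj (R := ℝ) (φ := fun _ : {G : Φ // 𝒢.dim G = k} => ℝ) G).smulRight
        ((if G.1 < F.1 then κ G.1 F.1 else 0) • (𝒢.l G.1).domRestrict (𝒢.W F.1))
  have hT : ∀ (c : {G : Φ // 𝒢.dim G = k} → ℝ) (F : {F : Φ // 𝒢.dim F = k + 1})
      (x : 𝒢.W F.1), T c F x = ∑ G : {G : Φ // 𝒢.dim G = k},
        c G * ((if G.1 < F.1 then κ G.1 F.1 else 0) * 𝒢.l G.1 x) := by
    intro c F x
    simp only [T, LinearMap.pi_apply, LinearMap.sum_apply, LinearMap.smulRight_apply,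
      LinearMap.proj_apply, LinearMap.smul_apply, LinearMap.domRestrict_apply, smul_eq_mul]
  have hrank : Module.finrank ℝ (∀ F : {F : Φ // 𝒢.dim F = k + 1}, Module.Dual ℝ (𝒢.W F.1)) <
      Module.finrank ℝ ({G : Φ // 𝒢.dim G = k} → ℝ) := by
    rw [Module.finrank_pi_fintype, Module.finrank_fintype_fun_eq_card]
    have h1 : ∀ F : {F : Φ // 𝒢.dim F = k + 1},
        Module.finrank ℝ (Module.Dual ℝ (𝒢.W F.1)) = k + 2 := by
      intro F
      rw [Subspace.dual_finrank_eq, 𝒢.W_rank, F.2]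
    rw [Finset.sum_congr rfl fun F _ => h1 F, Finset.sum_const, Finset.card_univ, smul_eq_mul,
      Fintype.card_subtype, Fintype.card_subtype, mul_comm]
    exact hlt
  obtain ⟨c, hc, hc0⟩ := Submodule.exists_mem_ne_zero_of_ne_bot
    (LinearMap.ker_ne_bot_of_finrank_lt (f := T) hrank)
  rw [LinearMap.mem_ker] at hc
  let c' : Φ → ℝ := fun G => if h : 𝒢.dim G = k then c ⟨G, h⟩ else 0
  have hc' : ∀ G : {G : Φ // 𝒢.dim G = k}, c' G.1 = c G := fun G => dif_pos G.2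
  have key := hBAL Φ V 𝒢 κ hκ k c' (by
    intro F hF x hx
    have h1 := hT c ⟨F, hF⟩ ⟨x, hx⟩
    rw [hc] at h1
    have h2 : ∑ G ∈ univ.filter (fun G => G < F ∧ 𝒢.dim G = k), κ G F * c' G * 𝒢.l G x =
        ∑ G ∈ univ.filter (fun G => 𝒢.dim G = k), if G < F then κ G F * c' G * 𝒢.l G x else 0 := by
      rw [← Finset.sum_filter, Finset.filter_filter]
      refine Finset.sum_congr ?_ fun _ _ => rfl
      ext G
      simp only [Finset.mem_filter, Finset.mem_univ, true_and]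
      exact and_comm
    rw [h2, Finset.sum_subtype (p := fun G => 𝒢.dim G = k) _ (fun G => by simp)]
    refine Eq.trans (Finset.sum_congr rfl fun G _ => ?_) h1.symm
    rw [hc' G]
    split_ifs
    · ring
    · ring) Q hk
  apply hc0
  funext G
  rw [← hc' G]
  exact key G.1 (hQ _) G.2

end Pool.Agent.KF.G
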